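import Mathlib

/-! Sequential choice of coordinates, in decreasing order of degree, avoiding planar sets. -/

namespace Pool.Agent.P.MP_e3ef68_co

open MeasureTheory Set
open scoped ENNReal

variable {α : Type*} [DecidableEq α]

omit [DecidableEq α] in
/-- One step: choose the value of the heaviest coordinate. -/
theorem step (U : Finset α) (W : α → Set (ℝ × ℝ)) (hW : ∀ c, MeasurableSet (W c))
    (sa : ℝ≥0∞) (h0 : sa ≠ 0) (h1 : sa ≠ ∞) (hdeg : ∑ c ∈ U, volume (W c) ≤ sa ^ 2)
    (s : α → ℝ≥0∞) (hs : ∀ c ∈ U, s c ≤ sa) (F : Set ℝ) (hF : volume F ≠ ∞) (β : α → ℝ≥0∞) :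
    ∃ t : ℝ, t ∉ F ∧ 4 * ENNReal.ofReal (t ^ 2) ≤ (2 * sa + volume F) ^ 2 ∧
      (∀ c ∈ U, volume (Prod.mk t ⁻¹' W c) ≤ sa) ∧
      ∑ c ∈ U, (β c + volume (Prod.mk t ⁻¹' W c)) ^ 2
        ≤ ∑ c ∈ U, ((β c + volume (W c) / s c) ^ 2 + volume (W c)) := by
  let l : α → ℝ → ℝ≥0∞ := fun c t => volume (Prod.mk t ⁻¹' W c)
  have hlm : ∀ c, Measurable (l c) := fun c => measurable_measure_prodMk_left (hW c)
  have hli : ∀ c, ∫⁻ t, l c t = volume (W c) := fun c => by
    rw [Measure.volume_eq_prod, Measure.prod_apply (hW c)]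
  have hfin : 2 * sa + volume F ≠ ∞ :=
    ENNReal.add_ne_top.2 ⟨ENNReal.mul_ne_top (by simp) h1, hF⟩
  let ρ : ℝ := (2 * sa + volume F).toReal / 2
  have hρ : 0 ≤ ρ := by positivity
  let bad : Set ℝ := ⋃ c ∈ U, {t | sa ≤ l c t}
  have hbad : volume bad ≤ sa := by
    refine (measure_biUnion_finset_le _ _).trans ?_
    have h2 : ∑ c ∈ U, volume {t | sa ≤ l c t} ≤ ∑ c ∈ U, volume (W c) / sa :=
      Finset.sum_le_sum fun c _ => by
        rw [← hli c]; exact meas_ge_le_lintegral_div (hlm c).aemeasurable h0 h1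
    refine h2.trans ?_
    simp_rw [div_eq_mul_inv]
    rw [← Finset.sum_mul, ← div_eq_mul_inv]
    exact ENNReal.div_le_of_le_mul (by rw [← sq]; exact hdeg)
  let X : Set ℝ := Icc (-ρ) ρ \ (F ∪ bad)
  have hI : volume (Icc (-ρ) ρ) = 2 * sa + volume F := by
    rw [Real.volume_Icc, show ρ - -ρ = (2 * sa + volume F).toReal by simp only [ρ]; ring,
      ENNReal.ofReal_toReal hfin]
  have hXtop : volume X ≠ ∞ := ne_top_of_le_ne_top hfin (hI ▸ measure_mono sdiff_subset)
  have hX : sa ≤ volume X := by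
    have h3 : volume (Icc (-ρ) ρ) ≤ volume X + (volume F + sa) := by
      calc volume (Icc (-ρ) ρ) ≤ volume (X ∪ (F ∪ bad)) :=
            measure_mono (by intro t ht; by_cases h : t ∈ F ∪ bad; exacts [Or.inr h, Or.inl ⟨ht, h⟩])
        _ ≤ volume X + volume (F ∪ bad) := measure_union_le _ _
        _ ≤ volume X + (volume F + sa) := by
            gcongr
            exact (measure_union_le _ _).trans (by gcongr)
    rw [hI, show 2 * sa + volume F = sa + (volume F + sa) by ring] at h3
    exact (ENNReal.add_le_add_iff_right (ENNReal.add_ne_top.2 ⟨hF, h1⟩)).1 h3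
  have hX0 : volume X ≠ 0 := fun h => h0 (le_zero_iff.1 (h ▸ hX))
  let f : ℝ → ℝ≥0∞ := fun t => ∑ c ∈ U, (β c ^ 2 + (2 * β c + sa) * l c t)
  have hfm : Measurable f := Finset.measurable_sum _ fun c _ =>
    measurable_const.add ((hlm c).const_mul _)
  obtain ⟨t, htX, ht⟩ := exists_le_setLAverage hX0 hXtop hfm.aemeasurable
  have htl : ∀ c ∈ U, l c t ≤ sa := by
    intro c hc
    by_contra h
    exact htX.2 (Or.inr (mem_biUnion (s := (U : Set α)) hc (le_of_lt (not_le.1 h))))
  refine ⟨t, fun h => htX.2 (Or.inl h), ?_, htl, ?_⟩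
  · have h4 : t ^ 2 ≤ ρ ^ 2 := sq_le_sq' htX.1.1 htX.1.2
    have h5 : (2 * sa + volume F) ^ 2 = ENNReal.ofReal (4 * ρ ^ 2) := by
      rw [show 4 * ρ ^ 2 = (2 * sa + volume F).toReal ^ 2 by simp only [ρ]; ring,
        ENNReal.ofReal_pow ENNReal.toReal_nonneg, ENNReal.ofReal_toReal hfin]
    rw [h5, ENNReal.ofReal_mul (by norm_num), ENNReal.ofReal_ofNat]
    gcongr
  · have h6 : ∑ c ∈ U, (β c + l c t) ^ 2 ≤ f t := by
      refine Finset.sum_le_sum fun c hc => ?_
      calc (β c + l c t) ^ 2 = β c ^ 2 + (2 * β c + l c t) * l c t := by ring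
        _ ≤ _ := by gcongr; exact htl c hc
    refine h6.trans (ht.trans ?_)
    rw [setLAverage_eq]
    refine ENNReal.div_le_of_le_mul ?_
    have h9 : ∫⁻ x in X, f x = ∑ c ∈ U, ∫⁻ x in X, (β c ^ 2 + (2 * β c + sa) * l c x) :=
      lintegral_finsetSum _ fun c _ => measurable_const.add ((hlm c).const_mul _)
    rw [h9, Finset.sum_mul]
    refine Finset.sum_le_sum fun c hc => ?_
    rw [lintegral_add_left measurable_const, lintegral_const_mul _ (hlm c), setLIntegral_const]
    have h7 : ∫⁻ t in X, l c t ≤ volume (W c) := hli c ▸ setLIntegral_le_lintegral _ _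
    have h8 : volume (W c) ≤ volume (W c) / s c * volume X := by
      calc volume (W c) = volume (W c) / sa * sa := (ENNReal.div_mul_cancel h0 h1).symm
        _ ≤ volume (W c) / s c * volume X := by gcongr; exact hs c hc
    calc β c ^ 2 * volume X + (2 * β c + sa) * ∫⁻ t in X, l c t
        ≤ β c ^ 2 * volume X + (2 * β c + sa) * volume (W c) := by gcongr
      _ = β c ^ 2 * volume X + 2 * β c * volume (W c) + volume (W c) * sa := by ring
      _ ≤ β c ^ 2 * volume X + 2 * β c * (volume (W c) / s c * volume X)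
            + volume (W c) * volume X := by gcongr
      _ ≤ β c ^ 2 * volume X + 2 * β c * (volume (W c) / s c * volume X)
            + volume (W c) * volume X + (volume (W c) / s c) ^ 2 * volume X := le_self_add
      _ = _ := by ring

theorem core (W : α → α → Set (ℝ × ℝ)) (hW : ∀ a c, MeasurableSet (W a c))
    (hsym : ∀ a c u v, (u, v) ∈ W a c → (v, u) ∈ W c a) (s : α → ℝ≥0∞) (h0 : ∀ a, s a ≠ 0)
    (h1 : ∀ a, s a ≠ ∞) (U : Finset α) :
    (∀ a ∈ U, ∑ c ∈ U.erase a, volume (W a c) ≤ s a ^ 2) → ∀ F : α → Set ℝ,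
      (∀ c ∈ U, volume (F c) ≠ ∞) →
      ∃ x : α → ℝ, (∀ c ∈ U, x c ∉ F c) ∧ (∀ a ∈ U, ∀ c ∈ U, a ≠ c → (x a, x c) ∉ W a c) ∧
        ∑ c ∈ U, 4 * ENNReal.ofReal (x c ^ 2) ≤
          ∑ c ∈ U, ((2 * s c + volume (F c) + ∑ e ∈ U.erase c, volume (W e c) / s c) ^ 2
            + ∑ e ∈ U.erase c, volume (W e c)) := by
  induction U using Finset.induction_on_max_value s with
  | empty => intro _ F _; exact ⟨fun _ => 0, by simp, by simp, by simp⟩
  | insert a U ha hmax ih =>
    intro hdeg F hF
    have hda := hdeg a (Finset.mem_insert_self _ _)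
    rw [Finset.erase_insert ha] at hda
    obtain ⟨t, htF, ht2, htl, hts⟩ := step U (W a) (hW a) (s a) (h0 a) (h1 a) hda s hmax (F a)
      (hF a (Finset.mem_insert_self _ _))
      (fun c => 2 * s c + volume (F c) + ∑ e ∈ U.erase c, volume (W e c) / s c)
    obtain ⟨y, hyF, hyW, hys⟩ := ih (fun c hc => le_trans (Finset.sum_le_sum_of_subset
        (Finset.erase_subset_erase _ (Finset.subset_insert _ _)))
        (hdeg c (Finset.mem_insert_of_mem hc)))
      (fun c => F c ∪ Prod.mk t ⁻¹' W a c) (fun c hc => ne_top_of_le_ne_top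
        (ENNReal.add_ne_top.2 ⟨hF c (Finset.mem_insert_of_mem hc),
          ne_top_of_le_ne_top (h1 a) (htl c hc)⟩) (measure_union_le _ _))
    have hne : ∀ c ∈ U, c ≠ a := fun c hc h => ha (h ▸ hc)
    have hy : ∀ c ∈ U, Function.update y a t c = y c := fun c hc =>
      Function.update_of_ne (hne c hc) _ _
    refine ⟨Function.update y a t, ?_, ?_, ?_⟩
    · intro c hc
      rcases Finset.mem_insert.1 hc with rfl | hc
      · rw [Function.update_self]; exact htF
      · rw [hy c hc]; exact fun h => hyF c hc (Or.inl h)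
    · intro b hb c hc hbc
      rcases Finset.mem_insert.1 hb with hb' | hb' <;> rcases Finset.mem_insert.1 hc with hc' | hc'
      · exact absurd (hb'.trans hc'.symm) hbc
      · rw [hb', Function.update_self, hy c hc']; exact fun h => hyF c hc' (Or.inr h)
      · rw [hc', Function.update_self, hy b hb']; exact fun h => hyF b hb' (Or.inr (hsym _ _ _ _ h))
      · rw [hy b hb', hy c hc']; exact hyW b hb' c hc' hbc
    · rw [Finset.sum_insert ha, Finset.sum_insert ha, Function.update_self]
      refine add_le_add (ht2.trans (le_trans ?_ le_self_add)) ?_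
      · exact pow_le_pow_left' le_self_add 2
      · rw [Finset.sum_congr rfl fun c hc => by rw [hy c hc]]
        refine hys.trans ?_
        have h2 : ∀ c ∈ U, (insert a U).erase c = insert a (U.erase c) := fun c hc =>
          Finset.erase_insert_of_ne (hne c hc).symm
        have h3 : ∀ c, a ∉ U.erase c := fun c h => ha (Finset.mem_of_mem_erase h)
        calc _ ≤ ∑ c ∈ U, (((2 * s c + volume (F c) + ∑ e ∈ U.erase c, volume (W e c) / s c)
              + volume (Prod.mk t ⁻¹' W a c)) ^ 2 + ∑ e ∈ U.erase c, volume (W e c)) := by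
              refine Finset.sum_le_sum fun c _ => ?_
              refine add_le_add (pow_le_pow_left' ?_ 2) le_rfl
              calc _ ≤ 2 * s c + (volume (F c) + volume (Prod.mk t ⁻¹' W a c))
                    + ∑ e ∈ U.erase c, volume (W e c) / s c := by
                    gcongr; exact measure_union_le _ _
                _ = _ := by ring
          _ ≤ ∑ c ∈ U, (((2 * s c + volume (F c) + ∑ e ∈ U.erase c, volume (W e c) / s c)
              + volume (W a c) / s c) ^ 2 + volume (W a c))
              + ∑ c ∈ U, ∑ e ∈ U.erase c, volume (W e c) := by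
              rw [Finset.sum_add_distrib]; gcongr
          _ = _ := by
              rw [← Finset.sum_add_distrib]
              refine Finset.sum_congr rfl fun c hc => ?_
              rw [h2 c hc, Finset.sum_insert (h3 c), Finset.sum_insert (h3 c)]
              ring

end Pool.Agent.P.MP_e3ef68_co
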