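import Mathlib

/-!
Matrix inequalities: rank-two updates of positive definite matrices and determinant bounds.
-/

namespace Pool.Agent.P.MP_e3ef68_co.Lat

open Matrix

variable {n : Type} [Fintype n] [DecidableEq n]

/-- The matrix `u uᵀ + v vᵀ`. -/
def Pm (u v : n → ℝ) : Matrix n n ℝ := vecMulVec u u + vecMulVec v v

omit [DecidableEq n] in
theorem form_Pm (u v g : n → ℝ) : g ⬝ᵥ Pm u v *ᵥ g = (u ⬝ᵥ g) ^ 2 + (v ⬝ᵥ g) ^ 2 := by
  simp only [Pm, add_mulVec, dotProduct_add, vecMulVec_mulVec, op_smul_eq_smul, dotProduct_smul,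
    smul_eq_mul]
  rw [dotProduct_comm g u, dotProduct_comm g v]
  ring

omit [DecidableEq n] in
theorem trace_Pm (u v : n → ℝ) : (Pm u v).trace = u ⬝ᵥ u + v ⬝ᵥ v := by
  simp [Pm, trace_add, trace_vecMulVec]

omit [Fintype n] [DecidableEq n] in
theorem herm_Pm (u v : n → ℝ) : (Pm u v).IsHermitian := by
  ext i j
  simp [Pm, vecMulVec_apply, mul_comm]

omit [DecidableEq n] in
theorem symm_form {Y : Matrix n n ℝ} (hY : Y.IsHermitian) (x y : n → ℝ) :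
    x ⬝ᵥ Y *ᵥ y = y ⬝ᵥ Y *ᵥ x := by
  have h : Yᵀ = Y := by simpa [IsHermitian] using hY
  rw [dotProduct_mulVec, ← mulVec_transpose, h, dotProduct_comm]

omit [DecidableEq n] in
theorem cs {Y : Matrix n n ℝ} (hY : Y.PosSemidef) (x y : n → ℝ) :
    (x ⬝ᵥ Y *ᵥ y) ^ 2 ≤ (x ⬝ᵥ Y *ᵥ x) * (y ⬝ᵥ Y *ᵥ y) := by
  have h := discrim_le_zero (a := y ⬝ᵥ Y *ᵥ y) (b := 2 * (x ⬝ᵥ Y *ᵥ y)) (c := x ⬝ᵥ Y *ᵥ x)
    fun t => by
      have h1 := hY.dotProduct_mulVec_nonneg (x + t • y)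
      simp only [star_trivial, mulVec_add, mulVec_smul, dotProduct_add, add_dotProduct,
        smul_dotProduct, dotProduct_smul, smul_eq_mul, symm_form hY.1 y x] at h1
      nlinarith
  simp only [discrim] at h
  nlinarith

/-- `uᵀ Z⁻¹ u + vᵀ Z⁻¹ v`. -/
noncomputable def cc (Z : Matrix n n ℝ) (u v : n → ℝ) : ℝ := u ⬝ᵥ Z⁻¹ *ᵥ u + v ⬝ᵥ Z⁻¹ *ᵥ v

theorem cc_nonneg {Z : Matrix n n ℝ} (hZ : Z.PosDef) (u v : n → ℝ) : 0 ≤ cc Z u v := by
  have h1 := hZ.inv.posSemidef.dotProduct_mulVec_nonneg u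
  have h2 := hZ.inv.posSemidef.dotProduct_mulVec_nonneg v
  simp only [star_trivial] at h1 h2
  exact add_nonneg h1 h2

theorem det_update {Z : Matrix n n ℝ} (hZ : Z.PosDef) (u v : n → ℝ) (δ : ℝ) :
    Z.det * (1 + δ * cc Z u v) ≤ (Z + δ • Pm u v).det := by
  let U : Matrix n (Fin 2) ℝ := of fun i j => δ * ![u, v] j i
  let W : Matrix (Fin 2) n ℝ := of fun j i => ![u, v] j i
  have h1 : δ • Pm u v = U * W := by
    ext i j
    simp [U, W, Pm, mul_apply, vecMulVec_apply]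
    ring
  have h2 : ∀ a b, (W * Z⁻¹ * U) a b = δ * (![u, v] a ⬝ᵥ Z⁻¹ *ᵥ ![u, v] b) := by
    intro a b
    rw [dotProduct_mulVec]
    simp only [mul_apply, U, W, of_apply, dotProduct, vecMul, Finset.mul_sum]
    exact Finset.sum_congr rfl fun i _ => by ring
  rw [h1, det_add_mul U W hZ.det_pos.ne'.isUnit]
  refine mul_le_mul_of_nonneg_left ?_ hZ.det_pos.le
  rw [det_fin_two]
  simp only [Matrix.add_apply, h2, one_apply_eq, ne_eq, zero_ne_one, not_false_eq_true, one_apply_ne,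
    one_ne_zero, cons_val_zero, cons_val_one, cc, symm_form hZ.inv.1 v u]
  have h3 := cs hZ.inv.posSemidef u v
  nlinarith [mul_le_mul_of_nonneg_left h3 (sq_nonneg δ)]

theorem form_le_cc {Z : Matrix n n ℝ} (hZ : Z.PosDef) (u v g : n → ℝ) :
    g ⬝ᵥ Pm u v *ᵥ g ≤ cc Z u v * (g ⬝ᵥ Z *ᵥ g) := by
  have hd : IsUnit Z.det := hZ.det_pos.ne'.isUnit
  have h : ∀ w : n → ℝ, (w ⬝ᵥ g) ^ 2 ≤ (w ⬝ᵥ Z⁻¹ *ᵥ w) * (g ⬝ᵥ Z *ᵥ g) := by
    intro w
    have h1 := cs hZ.inv.posSemidef w (Z *ᵥ g)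
    rwa [mulVec_mulVec, nonsing_inv_mul _ hd, one_mulVec, dotProduct_comm (Z *ᵥ g)] at h1
  rw [form_Pm, cc, add_mul]
  exact add_le_add (h u) (h v)

theorem posDef_sub {Z : Matrix n n ℝ} (hZ : Z.PosDef) (u v : n → ℝ) {θ : ℝ} (hθ : 0 ≤ θ)
    (h : θ * cc Z u v < 1) : (Z + (-θ) • Pm u v).PosDef := by
  refine .of_dotProduct_mulVec_pos (hZ.1.add ((herm_Pm u v).smul (IsSelfAdjoint.all _))) fun g hg => ?_
  have h1 := hZ.dotProduct_mulVec_pos hg
  have h2 := form_le_cc hZ u v g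
  simp only [star_trivial, add_mulVec, dotProduct_add, smul_mulVec, dotProduct_smul,
    smul_eq_mul] at h1 ⊢
  nlinarith [mul_le_mul_of_nonneg_left h2 hθ, mul_pos (sub_pos.2 h) h1]

omit [DecidableEq n] in
theorem posDef_add {Z : Matrix n n ℝ} (hZ : Z.PosDef) (u v : n → ℝ) {δ : ℝ} (hδ : 0 ≤ δ) :
    (Z + δ • Pm u v).PosDef := by
  refine .of_dotProduct_mulVec_pos (hZ.1.add ((herm_Pm u v).smul (IsSelfAdjoint.all _))) fun g hg => ?_
  have h1 := hZ.dotProduct_mulVec_pos hg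
  simp only [star_trivial, add_mulVec, dotProduct_add, smul_mulVec, dotProduct_smul,
    smul_eq_mul, form_Pm] at h1 ⊢
  positivity

theorem det_le_exp {Q : Matrix n n ℝ} (hQ : Q.PosSemidef) {t : ℝ} (ht : 0 < t) :
    Q.det ≤ t ^ Fintype.card n * Real.exp (Q.trace / t - Fintype.card n) := by
  rw [hQ.1.det_eq_prod_eigenvalues, hQ.1.trace_eq_sum_eigenvalues]
  simp only [RCLike.ofReal_real_eq_id, id]
  have h : (∑ i, hQ.1.eigenvalues i) / t - Fintype.card n =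
      ∑ i, (hQ.1.eigenvalues i / t - 1) := by
    simp [Finset.sum_sub_distrib, Finset.sum_div]
  rw [h, Real.exp_sum, ← Finset.card_univ, ← Finset.prod_const, ← Finset.prod_mul_distrib]
  refine Finset.prod_le_prod (fun i _ => hQ.eigenvalues_nonneg i) fun i _ => ?_
  have h1 := Real.add_one_le_exp (hQ.1.eigenvalues i / t - 1)
  calc hQ.1.eigenvalues i = t * (hQ.1.eigenvalues i / t - 1 + 1) := by field_simp; ring
    _ ≤ _ := mul_le_mul_of_nonneg_left h1 ht.le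

theorem exp_neg_two_le {x : ℝ} (h0 : 0 ≤ x) (h1 : x ≤ 1 / 2) : Real.exp (-2 * x) ≤ 1 - x := by
  have h2 := Real.add_one_le_exp (2 * x)
  have h3 : Real.exp (-2 * x) * Real.exp (2 * x) = 1 := by rw [← Real.exp_add]; simp
  have h4 := Real.exp_pos (-2 * x)
  nlinarith [mul_le_mul_of_nonneg_left h2 h4.le]

theorem exp_le_det {Z : Matrix n n ℝ} (hZ : Z.IsHermitian) {t : ℝ} (ht : 0 < t)
    (h1 : ∀ g, t / 2 * (g ⬝ᵥ g) ≤ g ⬝ᵥ Z *ᵥ g) (h2 : ∀ g, g ⬝ᵥ Z *ᵥ g ≤ t * (g ⬝ᵥ g)) :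
    t ^ Fintype.card n * Real.exp (-2 * (Fintype.card n - Z.trace / t)) ≤ Z.det := by
  rw [hZ.det_eq_prod_eigenvalues, hZ.trace_eq_sum_eigenvalues]
  simp only [RCLike.ofReal_real_eq_id, id]
  have h : -2 * (Fintype.card n - (∑ i, hZ.eigenvalues i) / t) =
      ∑ i, -2 * (1 - hZ.eigenvalues i / t) := by
    simp [Finset.sum_sub_distrib, Finset.sum_div, ← Finset.mul_sum]
  rw [h, Real.exp_sum, ← Finset.card_univ, ← Finset.prod_const, ← Finset.prod_mul_distrib]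
  refine Finset.prod_le_prod (fun i _ => by positivity) fun i _ => ?_
  have hn : (hZ.eigenvectorBasis i).ofLp ⬝ᵥ (hZ.eigenvectorBasis i).ofLp = 1 := by
    have := hZ.eigenvectorBasis.orthonormal.1 i
    have h3 := real_inner_self_eq_norm_sq (hZ.eigenvectorBasis i)
    rw [this, EuclideanSpace.inner_eq_star_dotProduct] at h3
    simpa using h3
  have he := hZ.eigenvalues_eq i
  simp only [star_trivial, RCLike.re_to_real] at he
  have h3 := h1 (hZ.eigenvectorBasis i).ofLp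
  have h4 := h2 (hZ.eigenvectorBasis i).ofLp
  rw [hn, ← he] at h3 h4
  have h5 := exp_neg_two_le (x := 1 - hZ.eigenvalues i / t)
    (by rw [sub_nonneg, div_le_one ht]; linarith)
    (by rw [sub_le_comm, le_div_iff₀ ht]; linarith)
  calc t * Real.exp (-2 * (1 - hZ.eigenvalues i / t))
      ≤ t * (1 - (1 - hZ.eigenvalues i / t)) := mul_le_mul_of_nonneg_left h5 ht.le
    _ = hZ.eigenvalues i := by field_simp; ring

end Pool.Agent.P.MP_e3ef68_co.Lat
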