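import Mathlib
import Pool.Agent.P.MP_e3ef68_co.LMat

/-!
The barrier argument: tokens are imposed one at a time, with growth steps in between.
-/

namespace Pool.Agent.P.MP_e3ef68_co.Lat

open Matrix

variable {n : Type} [Fintype n] [DecidableEq n] {ι : Type} [Fintype ι] [DecidableEq ι]

/-- The growth threshold. -/
noncomputable def GG : ℝ := 2 * Real.exp 4

theorem two_le_GG : 2 ≤ GG := by
  have := Real.add_one_le_exp 4
  unfold GG; linarith

/-- The barrier matrix. -/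
def Zm (u v : ι → n → ℝ) (t : ℝ) (x : ι → ℝ) : Matrix n n ℝ :=
  t • (1 : Matrix n n ℝ) - ∑ τ, x τ • Pm (u τ) (v τ)

theorem Zm_add (u v : ι → n → ℝ) (t : ℝ) (x : ι → ℝ) (τ : ι) (δ : ℝ) :
    Zm u v t (x + Pi.single τ δ) = Zm u v t x + (-δ) • Pm (u τ) (v τ) := by
  simp only [Zm, Pi.add_apply, add_smul, Finset.sum_add_distrib]
  rw [Finset.sum_eq_single τ (f := fun σ => (Pi.single τ δ : ι → ℝ) σ • Pm (u σ) (v σ))
    (fun σ _ h => by simp [h]) (by simp)]
  simp only [Pi.single_eq_same, neg_smul]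
  abel

omit [DecidableEq ι] in
theorem form_Zm (u v : ι → n → ℝ) (t : ℝ) (x : ι → ℝ) (g : n → ℝ) :
    g ⬝ᵥ Zm u v t x *ᵥ g = t * (g ⬝ᵥ g) - ∑ τ, x τ * ((u τ ⬝ᵥ g) ^ 2 + (v τ ⬝ᵥ g) ^ 2) := by
  simp only [Zm, sub_mulVec, dotProduct_sub, smul_mulVec, one_mulVec, dotProduct_smul, smul_eq_mul,
    sum_mulVec, dotProduct_sum, form_Pm]

omit [DecidableEq ι] in
theorem trace_Zm {u v : ι → n → ℝ} (hu : ∀ τ, u τ ⬝ᵥ u τ = 1) (hv : ∀ τ, v τ ⬝ᵥ v τ = 1) (t : ℝ)
    (x : ι → ℝ) : (Zm u v t x).trace = t * Fintype.card n - 2 * ∑ τ, x τ := by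
  simp only [Zm, trace_sub, trace_smul, trace_one, smul_eq_mul, trace_sum, trace_Pm, hu, hv,
    Finset.mul_sum]
  congr 1
  exact Finset.sum_congr rfl fun τ _ => by ring

omit [DecidableEq ι] [Fintype n] in
theorem herm_Zm (u v : ι → n → ℝ) (t : ℝ) (x : ι → ℝ) : (Zm u v t x).IsHermitian := by
  refine (isHermitian_one.smul (IsSelfAdjoint.all _)).sub ?_
  have h : ∀ τ, (x τ • Pm (u τ) (v τ))ᴴ = x τ • Pm (u τ) (v τ) := fun τ =>
    (herm_Pm _ _).smul (IsSelfAdjoint.all _)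
  simp only [IsHermitian, conjTranspose_sum, h]

/-- Weights of the barrier matrix: growth so far plus the charge of the remaining tokens. -/
def wt (β : ℝ) (S : Finset ι) (θ : ι → ℝ) : ι → ℝ := fun τ => θ τ + if τ ∈ S then 0 else β

omit [Fintype ι] in
theorem wt_grow (β : ℝ) (S : Finset ι) (θ : ι → ℝ) (τ : ι) (δ : ℝ) :
    wt β S (θ + Pi.single τ δ) = wt β S θ + Pi.single τ δ := by
  funext σ; simp only [wt, Pi.add_apply]; ring

omit [Fintype ι] in
theorem wt_insert (β : ℝ) {S : Finset ι} (θ : ι → ℝ) {τ : ι} (h : τ ∉ S) :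
    wt β (insert τ S) θ = wt β S θ + Pi.single τ (-β) := by
  funext σ
  by_cases hσ : σ = τ
  · subst hσ; simp [wt, h]
  · simp [wt, hσ]

theorem game {u v : ι → n → ℝ} (hu : ∀ τ, u τ ⬝ᵥ u τ = 1) (hv : ∀ τ, v τ ⬝ᵥ v τ = 1)
    (q : ι → ℝ) (hq : ∀ τ, 0 < q τ) {α m Λ A F₀ t K : ℝ} (hα : 0 < α) (hm : 0 < m) (hF₀ : 0 < F₀)
    (ht : t = 64 * GG * m) (hK : K = 16 * GG * Λ + 128 * GG * A / t + 1)
    (hM : ∀ g, ∑ τ, α * ((u τ ⬝ᵥ g) ^ 2 + (v τ ⬝ᵥ g) ^ 2) ≤ m * (g ⬝ᵥ g))
    (hΛ : α * ∑ τ, q τ ≤ Λ) (hA : α * Fintype.card ι ≤ A)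
    (hsmall : ∀ τ, 16 * GG * α * (q τ + 2 * (Real.exp (2 + K) / t)) ≤ 1)
    (f : Finset ι → ℕ → (ι → ℝ) → ℝ) (h0 : F₀ ≤ f ∅ 0 0)
    (hup : ∀ S (k : ℕ) θ, 0 ≤ θ → ∑ τ, θ τ * q τ ≤ k → f S k θ ≤ 2 * F₀ * Real.exp (3 * k))
    (hstep : ∀ S k θ τ ϑ, 0 ≤ θ → ∑ τ, θ τ * q τ ≤ (k : ℕ) → 2 * α ≤ ϑ → ϑ * q τ ≤ 1 →
      f S k θ ≤ f (insert τ S) k θ + 8 * α / ϑ * f S (k + 1) (θ + Pi.single τ ϑ)) :
    ∃ (k : ℕ) (θ : ι → ℝ), 0 ≤ θ ∧ (k : ℝ) ≤ K ∧
      (∀ g, ∑ τ, θ τ * ((u τ ⬝ᵥ g) ^ 2 + (v τ ⬝ᵥ g) ^ 2) ≤ t * (g ⬝ᵥ g)) ∧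
      0 < f Finset.univ k θ := by
  have hG := two_le_GG
  have htpos : 0 < t := by rw [ht]; positivity
  set β := 32 * GG * α with hβ
  have hβ0 : 0 < β := by positivity
  set d := Fintype.card n with hd
  set D₀ := t ^ d * Real.exp (-(128 * GG * A / t)) with hD₀
  have hD₀pos : 0 < D₀ := by positivity
  let Good : Finset ι → ℕ → (ι → ℝ) → Prop := fun S k θ =>
    0 ≤ θ ∧ ∑ τ, θ τ * q τ ≤ k ∧ (Zm u v t (wt β S θ)).PosDef ∧
      F₀ * D₀ * Real.exp (4 * k - 16 * GG * (α * ∑ τ ∈ S, q τ)) ≤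
        f S k θ * (Zm u v t (wt β S θ)).det
  have hwt : ∀ (S : Finset ι) (θ : ι → ℝ), 0 ≤ θ → 0 ≤ ∑ τ, wt β S θ τ := fun S θ hθ =>
    Finset.sum_nonneg fun τ _ => by
      have := hθ τ
      simp only [Pi.zero_apply] at this
      simp only [wt]
      split_ifs <;> positivity
  -- the initial state
  have hinit : Good ∅ 0 0 := by
    have hlow : ∀ g, t / 2 * (g ⬝ᵥ g) ≤ g ⬝ᵥ Zm u v t (wt β ∅ 0) *ᵥ g := by
      intro g
      have h1 := mul_le_mul_of_nonneg_left (hM g) (show 0 ≤ 32 * GG by positivity)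
      rw [form_Zm]
      simp only [wt, Pi.zero_apply, Finset.notMem_empty, if_false, zero_add]
      rw [Finset.mul_sum] at h1
      have h2 : ∑ τ, β * ((u τ ⬝ᵥ g) ^ 2 + (v τ ⬝ᵥ g) ^ 2) =
          ∑ τ, 32 * GG * (α * ((u τ ⬝ᵥ g) ^ 2 + (v τ ⬝ᵥ g) ^ 2)) :=
        Finset.sum_congr rfl fun τ _ => by rw [hβ]; ring
      rw [h2, ht]
      linarith
    have hupp : ∀ g, g ⬝ᵥ Zm u v t (wt β ∅ 0) *ᵥ g ≤ t * (g ⬝ᵥ g) := by
      intro g
      rw [form_Zm]
      simp only [wt, Pi.zero_apply, Finset.notMem_empty, if_false, zero_add]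
      have : 0 ≤ ∑ τ, β * ((u τ ⬝ᵥ g) ^ 2 + (v τ ⬝ᵥ g) ^ 2) :=
        Finset.sum_nonneg fun τ _ => by positivity
      linarith
    have hdet := exp_le_det (herm_Zm u v t (wt β ∅ 0)) htpos hlow hupp
    have hdet2 : D₀ ≤ (Zm u v t (wt β ∅ 0)).det := by
      refine le_trans (mul_le_mul_of_nonneg_left (Real.exp_le_exp.2 ?_) (by positivity)) hdet
      rw [trace_Zm hu hv]
      simp only [wt, Pi.zero_apply, Finset.notMem_empty, if_false, zero_add, Finset.sum_const,
        Finset.card_univ, nsmul_eq_mul]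
      have h1 : -2 * ((d : ℝ) - (t * d - 2 * (Fintype.card ι * β)) / t) =
          -(128 * GG * (α * Fintype.card ι) / t) := by rw [hβ]; field_simp; ring
      rw [← hd, h1, neg_le_neg_iff]
      gcongr
    refine ⟨le_rfl, by simp, ?_, ?_⟩
    · refine .of_dotProduct_mulVec_pos (herm_Zm _ _ _ _) fun g hg => ?_
      have h1 := hlow g
      have h2 : 0 < g ⬝ᵥ g := by
        have := dotProduct_star_self_pos_iff (v := g) |>.2 hg
        simpa using this
      rw [star_trivial]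
      exact lt_of_lt_of_le (by positivity) h1
    · simp only [Nat.cast_zero, mul_zero, Finset.sum_empty, sub_zero, Real.exp_zero, mul_one]
      exact mul_le_mul h0 hdet2 hD₀pos.le (hF₀.le.trans h0)
  -- consequences of the invariant
  have hcons : ∀ S k θ, Good S k θ → 0 < f S k θ ∧ (k : ℝ) ≤ K ∧
      ∀ τ, cc (Zm u v t (wt β S θ)) (u τ) (v τ) ≤ Real.exp (2 + K) / t := by
    rintro S k θ ⟨hθ, hθq, hZ, hpot⟩
    have hdp := hZ.det_pos
    have hfpos : 0 < f S k θ := by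
      by_contra hneg
      have : f S k θ * (Zm u v t (wt β S θ)).det ≤ 0 :=
        mul_nonpos_of_nonpos_of_nonneg (not_lt.1 hneg) hdp.le
      have h2 : 0 < F₀ * D₀ * Real.exp (4 * k - 16 * GG * (α * ∑ τ ∈ S, q τ)) := by positivity
      linarith
    have hS : α * ∑ τ ∈ S, q τ ≤ Λ := le_trans (mul_le_mul_of_nonneg_left
      (Finset.sum_le_sum_of_subset_of_nonneg (Finset.subset_univ S) fun τ _ _ => (hq τ).le)
      hα.le) hΛ
    have hlow : t ^ d * Real.exp (k - K) ≤ (Zm u v t (wt β S θ)).det := by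
      have h1 := hpot.trans (mul_le_mul_of_nonneg_right (hup S k θ hθ hθq) hdp.le)
      have h2 : (2 : ℝ) ≤ Real.exp 1 := by have := Real.add_one_le_exp 1; linarith
      have h3 : 2 * F₀ * Real.exp (3 * k) * (t ^ d * Real.exp (k - K)) ≤
          F₀ * D₀ * Real.exp (4 * k - 16 * GG * (α * ∑ τ ∈ S, q τ)) := by
        calc 2 * F₀ * Real.exp (3 * k) * (t ^ d * Real.exp (k - K))
            ≤ Real.exp 1 * F₀ * Real.exp (3 * k) * (t ^ d * Real.exp (k - K)) := by gcongr
          _ = F₀ * t ^ d * Real.exp (1 + 3 * k + (k - K)) := by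
            rw [Real.exp_add, Real.exp_add]; ring
          _ ≤ F₀ * t ^ d * Real.exp (-(128 * GG * A / t) +
                (4 * k - 16 * GG * (α * ∑ τ ∈ S, q τ))) := by
            refine mul_le_mul_of_nonneg_left (Real.exp_le_exp.2 ?_) (by positivity)
            have := mul_le_mul_of_nonneg_left hS (show 0 ≤ 16 * GG by positivity)
            rw [hK]
            linarith
          _ = _ := by rw [Real.exp_add, hD₀]; ring
      exact le_of_mul_le_mul_left (h3.trans h1) (by positivity)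
    refine ⟨hfpos, ?_, fun τ => ?_⟩
    · have h1 := det_le_exp hZ.posSemidef htpos
      rw [trace_Zm hu hv, ← hd] at h1
      have h2 := le_of_mul_le_mul_left (hlow.trans h1) (by positivity)
      rw [Real.exp_le_exp] at h2
      have h3 : (t * d - 2 * ∑ τ, wt β S θ τ) / t - d = -(2 * (∑ τ, wt β S θ τ) / t) := by
        field_simp; ring
      have h4 : 0 ≤ 2 * (∑ τ, wt β S θ τ) / t := div_nonneg (by linarith [hwt S θ hθ]) htpos.le
      linarith
    · have h1 := det_le_exp (posDef_add hZ (u τ) (v τ) htpos.le).posSemidef htpos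
      rw [trace_add, trace_smul, trace_Zm hu hv, trace_Pm, hu, hv, ← hd, smul_eq_mul] at h1
      have h3 : (t * d - 2 * ∑ τ, wt β S θ τ + t * (1 + 1)) / t - d =
          2 - 2 * (∑ τ, wt β S θ τ) / t := by field_simp; ring
      have h4 : 0 ≤ 2 * (∑ τ, wt β S θ τ) / t := div_nonneg (by linarith [hwt S θ hθ]) htpos.le
      rw [h3] at h1
      have h5 := det_update hZ (u τ) (v τ) t
      have hc := cc_nonneg hZ (u τ) (v τ)
      have h6 : t ^ d * Real.exp (-K) * (t * cc (Zm u v t (wt β S θ)) (u τ) (v τ)) ≤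
          t ^ d * Real.exp 2 := by
        calc _ ≤ t ^ d * Real.exp (k - K) * (1 + t * cc (Zm u v t (wt β S θ)) (u τ) (v τ)) := by
              gcongr
              · linarith [(Nat.cast_nonneg k : (0 : ℝ) ≤ k)]
              · linarith
          _ ≤ _ := mul_le_mul_of_nonneg_right hlow (by positivity)
          _ ≤ _ := h5
          _ ≤ _ := h1
          _ ≤ _ := by gcongr; linarith
      rw [mul_assoc] at h6
      have h7 := le_of_mul_le_mul_left h6 (by positivity)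
      rw [le_div_iff₀ htpos, Real.exp_add]
      have h8 : Real.exp (-K) * Real.exp K = 1 := by rw [← Real.exp_add]; simp
      have h9 := mul_le_mul_of_nonneg_right h7 (Real.exp_pos K).le
      calc _ = Real.exp (-K) * (t * cc (Zm u v t (wt β S θ)) (u τ) (v τ)) * Real.exp K := by
            linear_combination (-(cc (Zm u v t (wt β S θ)) (u τ) (v τ) * t)) * h8
        _ ≤ _ := h9
  -- one step
  have hnext : ∀ S k θ, Good S k θ → S ≠ Finset.univ →
      ∃ S' k' θ', Good S' k' θ' ∧ S'.card + k' = S.card + k + 1 := by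
    intro S k θ hgood hS
    obtain ⟨hfpos, -, hc⟩ := hcons S k θ hgood
    obtain ⟨hθ, hθq, hZ, hpot⟩ := hgood
    obtain ⟨τ, hτ⟩ : ∃ τ, τ ∉ S := by
      by_contra h
      push Not at h
      exact hS (Finset.eq_univ_iff_forall.2 h)
    have hdp := hZ.det_pos
    set c := cc (Zm u v t (wt β S θ)) (u τ) (v τ) with hcdef
    have hc0 : 0 ≤ c := cc_nonneg hZ _ _
    have hqτ := hq τ
    have hsm : 16 * GG * α * (q τ + 2 * c) ≤ 1 := by
      refine le_trans ?_ (hsmall τ)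
      have := hc τ
      gcongr
    set ϑ := 1 / (q τ + 2 * c) with hϑ
    have hϑ0 : 0 < ϑ := by positivity
    have hϑ1 : ϑ * (q τ + 2 * c) = 1 := by rw [hϑ]; field_simp
    have hϑq : ϑ * q τ ≤ 1 := by nlinarith [mul_nonneg hϑ0.le hc0]
    have hϑc : ϑ * c ≤ 1 / 2 := by nlinarith [mul_pos hϑ0 hqτ]
    have hαϑ : 2 * α ≤ ϑ := by
      rw [hϑ, le_div_iff₀ (by positivity)]
      nlinarith [mul_pos hα (show 0 < q τ + 2 * c by positivity)]
    by_cases hgrow : GG * f S k θ < f S (k + 1) (θ + Pi.single τ ϑ)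
    · refine ⟨S, k + 1, θ + Pi.single τ ϑ, ⟨fun σ => ?_, ?_, ?_, ?_⟩, by ring⟩
      · refine add_nonneg (hθ σ) ?_
        by_cases h : σ = τ
        · subst h; simpa using hϑ0.le
        · simp [h]
      · simp only [Pi.add_apply, add_mul, Finset.sum_add_distrib]
        rw [Finset.sum_eq_single τ (f := fun σ => (Pi.single τ ϑ : ι → ℝ) σ * q σ)
          (fun σ _ h => by simp [h]) (by simp)]
        simp only [Pi.single_eq_same]
        push_cast
        linarith
      · rw [wt_grow, Zm_add]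
        exact posDef_sub hZ _ _ hϑ0.le (by linarith)
      · rw [wt_grow, Zm_add]
        have h1 := det_update hZ (u τ) (v τ) (-ϑ)
        have h2 : (Zm u v t (wt β S θ)).det * (1 / 2) ≤
            (Zm u v t (wt β S θ) + -ϑ • Pm (u τ) (v τ)).det :=
          le_trans (mul_le_mul_of_nonneg_left (by rw [← hcdef]; linarith) hdp.le) h1
        calc _ = Real.exp 4 * (F₀ * D₀ * Real.exp (4 * k - 16 * GG * (α * ∑ τ ∈ S, q τ))) := by
              push_cast
              rw [show (4 : ℝ) * (k + 1) - 16 * GG * (α * ∑ τ ∈ S, q τ) =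
                4 + (4 * k - 16 * GG * (α * ∑ τ ∈ S, q τ)) by ring, Real.exp_add]
              ring
          _ ≤ Real.exp 4 * (f S k θ * (Zm u v t (wt β S θ)).det) := by gcongr
          _ = (GG * f S k θ) * ((Zm u v t (wt β S θ)).det * (1 / 2)) := by unfold GG; ring
          _ ≤ _ := mul_le_mul hgrow.le h2 (by positivity) (le_trans (by positivity) hgrow.le)
    · rw [not_lt] at hgrow
      have hZ' : Zm u v t (wt β (insert τ S) θ) = Zm u v t (wt β S θ) + β • Pm (u τ) (v τ) := by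
        rw [wt_insert β θ hτ, Zm_add, neg_neg]
      refine ⟨insert τ S, k, θ, ⟨hθ, hθq, ?_, ?_⟩, by rw [Finset.card_insert_of_notMem hτ]; ring⟩
      · rw [hZ']; exact posDef_add hZ _ _ hβ0.le
      · rw [hZ', Finset.sum_insert hτ]
        set a := 8 * GG * α * q τ with ha
        set b := 16 * GG * α * c with hb
        have ha0 : 0 ≤ a := by positivity
        have hb0 : 0 ≤ b := by positivity
        have hab : a + b ≤ 1 / 2 := by rw [ha, hb]; linarith
        have h1 := det_update hZ (u τ) (v τ) β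
        have h2 : β * c = 2 * b := by rw [hβ, hb]; ring
        rw [← hcdef, h2] at h1
        have h3 : f S k θ * (1 - a - b) ≤ f (insert τ S) k θ := by
          have h4 := hstep S k θ τ ϑ hθ hθq hαϑ hϑq
          have h5 : 8 * α / ϑ * f S (k + 1) (θ + Pi.single τ ϑ) ≤ 8 * α / ϑ * (GG * f S k θ) := by
            gcongr
          have h6 : 8 * α / ϑ * (GG * f S k θ) = f S k θ * (a + b) := by
            rw [hϑ, ha, hb]; field_simp; ring
          linarith
        have h7 := exp_neg_two_le ha0 (by linarith)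
        calc _ = Real.exp (-2 * a) *
              (F₀ * D₀ * Real.exp (4 * k - 16 * GG * (α * ∑ τ ∈ S, q τ))) := by
              rw [show (4 : ℝ) * k - 16 * GG * (α * (q τ + ∑ τ ∈ S, q τ)) =
                -2 * a + (4 * k - 16 * GG * (α * ∑ τ ∈ S, q τ)) by rw [ha]; ring, Real.exp_add]
              ring
          _ ≤ (1 - a) * (f S k θ * (Zm u v t (wt β S θ)).det) :=
            mul_le_mul h7 hpot (by positivity) (by linarith)
          _ ≤ ((1 - a - b) * (1 + 2 * b)) * (f S k θ * (Zm u v t (wt β S θ)).det) :=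
            mul_le_mul_of_nonneg_right (by nlinarith) (by positivity)
          _ = (f S k θ * (1 - a - b)) * ((Zm u v t (wt β S θ)).det * (1 + 2 * b)) := by ring
          _ ≤ _ := mul_le_mul h3 h1 (by positivity)
            (le_trans (mul_nonneg hfpos.le (by linarith)) h3)
  -- termination
  obtain ⟨k, θ, hgood⟩ : ∃ k θ, Good Finset.univ k θ := by
    by_contra hno
    push Not at hno
    have hall : ∀ j : ℕ, ∃ S k θ, Good S k θ ∧ S.card + k = j := by
      intro j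
      induction j with
      | zero => exact ⟨∅, 0, 0, hinit, by simp⟩
      | succ j ih =>
        obtain ⟨S, k, θ, hg, hj⟩ := ih
        obtain ⟨S', k', θ', hg', hj'⟩ := hnext S k θ hg (fun h => hno k θ (h ▸ hg))
        exact ⟨S', k', θ', hg', by omega⟩
    obtain ⟨S, k, θ, hg, hj⟩ := hall (Fintype.card ι + ⌈K⌉₊ + 1)
    have h1 := (hcons S k θ hg).2.1
    have h2 : k ≤ ⌈K⌉₊ := by exact_mod_cast h1.trans (Nat.le_ceil K)
    have h3 := S.card_le_univ
    omega
  obtain ⟨hfpos, hk, -⟩ := hcons _ k θ hgood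
  refine ⟨k, θ, hgood.1, hk, fun g => ?_, hfpos⟩
  have h1 := hgood.2.2.1.posSemidef.dotProduct_mulVec_nonneg g
  rw [star_trivial, form_Zm] at h1
  simpa [wt] using h1

end Pool.Agent.P.MP_e3ef68_co.Lat
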