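import Mathlib

/-!
Finitely supported functions on the lattice `ι → ℤ × ℤ` with vanishing sums along the planar
lines of a set of coordinates, and the dimension count for imposing one more coordinate.
-/

namespace Pool.Agent.P.MP_e3ef68_co.Lat

open Module

variable {ι : Type} [DecidableEq ι]

/-- Forget the coordinate `τ`. -/
def line (τ : ι) (m : ι → ℤ × ℤ) : ι → ℤ × ℤ := Function.update m τ 0

theorem line_add (τ : ι) (m m' : ι → ℤ × ℤ) : line τ (m + m') = line τ m + line τ m' := by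
  funext σ
  by_cases h : σ = τ
  · subst h; simp [line]
  · simp [line, h]

theorem line_single (τ : ι) (w : ℤ × ℤ) : line τ (Pi.single τ w) = 0 := by
  funext σ
  by_cases h : σ = τ
  · subst h; simp [line]
  · simp [line, h]

/-- Functions supported in `C` with zero sum on every line of every coordinate in `S`. -/
noncomputable def V (S : Finset ι) (C : Finset (ι → ℤ × ℤ)) : Submodule ℝ ((ι → ℤ × ℤ) →₀ ℝ) :=
  Finsupp.supported ℝ ℝ (C : Set (ι → ℤ × ℤ)) ⊓
    ⨅ τ ∈ S, LinearMap.ker (Finsupp.lmapDomain ℝ ℝ (line τ))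

theorem mem_V {S : Finset ι} {C : Finset (ι → ℤ × ℤ)} {ψ : (ι → ℤ × ℤ) →₀ ℝ} :
    ψ ∈ V S C ↔ ψ.support ⊆ C ∧ ∀ τ ∈ S, Finsupp.mapDomain (line τ) ψ = 0 := by
  simp [V, Finsupp.mem_supported, Submodule.mem_iInf]

omit [DecidableEq ι] in
theorem finrank_supported (C : Finset (ι → ℤ × ℤ)) :
    finrank ℝ (Finsupp.supported ℝ ℝ (C : Set (ι → ℤ × ℤ))) = C.card := by
  rw [(Finsupp.supportedEquivFinsupp (R := ℝ) (M := ℝ) (C : Set (ι → ℤ × ℤ))).finrank_eq]
  simp

omit [DecidableEq ι] in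
theorem finite_supported (C : Finset (ι → ℤ × ℤ)) :
    Module.Finite ℝ (Finsupp.supported ℝ ℝ (C : Set (ι → ℤ × ℤ))) :=
  Module.Finite.equiv
    (Finsupp.supportedEquivFinsupp (R := ℝ) (M := ℝ) (C : Set (ι → ℤ × ℤ))).symm

theorem V_le (S : Finset ι) (C : Finset (ι → ℤ × ℤ)) :
    V S C ≤ Finsupp.supported ℝ ℝ (C : Set (ι → ℤ × ℤ)) := inf_le_left

theorem finite_V (S : Finset ι) (C : Finset (ι → ℤ × ℤ)) : Module.Finite ℝ (V S C) :=
  haveI := finite_supported C
  Submodule.finiteDimensional_of_le (V_le S C)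

theorem finrank_V_le (S : Finset ι) (C : Finset (ι → ℤ × ℤ)) : finrank ℝ (V S C) ≤ C.card := by
  have := finite_supported C
  rw [← finrank_supported C]
  exact Submodule.finrank_mono (V_le S C)

theorem finrank_V_empty (C : Finset (ι → ℤ × ℤ)) : finrank ℝ (V ∅ C) = C.card := by
  have : V (∅ : Finset ι) C = Finsupp.supported ℝ ℝ (C : Set (ι → ℤ × ℤ)) := by simp [V]
  rw [this, finrank_supported]

theorem partner {τ : ι} {ψ : (ι → ℤ × ℤ) →₀ ℝ} (h : Finsupp.mapDomain (line τ) ψ = 0)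
    {m : ι → ℤ × ℤ} (hm : m ∈ ψ.support) :
    ∃ w : ℤ × ℤ, w ≠ 0 ∧ m + Pi.single τ w ∈ ψ.support := by
  classical
  by_contra hcon
  push Not at hcon
  have h1 : Finsupp.mapDomain (line τ) ψ (line τ m) = ψ m := by
    rw [Finsupp.mapDomain, Finsupp.sum_apply, Finsupp.sum, Finset.sum_eq_single m]
    · simp
    · intro b hb hbm
      rw [Finsupp.single_apply, if_neg]
      intro hl
      have hb' : b = m + Pi.single τ (b τ - m τ) := by
        funext σ
        by_cases hσ : σ = τ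
        · subst hσ; simp
        · have := congrFun hl σ
          simp only [line, Function.update_of_ne hσ] at this
          simp [hσ, this]
      refine hcon (b τ - m τ) (fun h0 => hbm ?_) (hb' ▸ hb)
      rw [hb', h0]; simp
    · intro h; exact absurd hm h
  rw [h] at h1
  exact Finsupp.mem_support_iff.1 hm h1.symm

/-- Translation. -/
noncomputable def shift (γ : ι → ℤ × ℤ) : ((ι → ℤ × ℤ) →₀ ℝ) →ₗ[ℝ] ((ι → ℤ × ℤ) →₀ ℝ) :=
  Finsupp.lmapDomain ℝ ℝ (· + γ)

theorem shift_mem {S : Finset ι} {C C' : Finset (ι → ℤ × ℤ)} {γ : ι → ℤ × ℤ}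
    (hC : ∀ m ∈ C, m + γ ∈ C') {ψ : (ι → ℤ × ℤ) →₀ ℝ} (h : ψ ∈ V S C) : shift γ ψ ∈ V S C' := by
  classical
  rw [mem_V] at h ⊢
  refine ⟨fun m hm => ?_, fun τ hτ => ?_⟩
  · obtain ⟨a, ha, rfl⟩ := Finset.mem_image.1 (Finsupp.mapDomain_support hm)
    exact hC a (h.1 ha)
  · have : line τ ∘ (· + γ) = (· + line τ γ) ∘ line τ := by
      funext m; simp [line_add]
    simp only [shift, Finsupp.lmapDomain_apply]
    rw [← Finsupp.mapDomain_comp, this, Finsupp.mapDomain_comp, h.2 τ hτ, Finsupp.mapDomain_zero]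

/-- Weighted line sums. -/
noncomputable def wsum (τ : ι) (f : (ι → ℤ × ℤ) → ℝ) :
    ((ι → ℤ × ℤ) →₀ ℝ) →ₗ[ℝ] ((ι → ℤ × ℤ) →₀ ℝ) :=
  Finsupp.linearCombination ℝ fun m => Finsupp.single (line τ m) (f m)

theorem wsum_one (τ : ι) : wsum τ (fun _ => 1) = Finsupp.lmapDomain ℝ ℝ (line τ) := by
  ext m : 2
  simp [wsum]

theorem wsum_shift (τ : ι) (lam : ℤ × ℤ →+ ℝ) (k : ℕ) (w : ℤ × ℤ) (ψ : (ι → ℤ × ℤ) →₀ ℝ) :
    wsum τ (fun m => lam (m τ) ^ k) (shift (Pi.single τ w) ψ) =
      ∑ j ∈ Finset.range (k + 1), (k.choose j : ℝ) •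
        wsum τ (fun m => lam (m τ) ^ (k - j)) (lam w ^ j • ψ) := by
  induction ψ using Finsupp.induction_linear with
  | zero => simp
  | add f g hf hg => simp only [map_add, hf, hg, smul_add, Finset.sum_add_distrib]
  | single m a =>
    simp only [wsum, shift, Finsupp.lmapDomain_apply, Finsupp.mapDomain_single,
      Finsupp.linearCombination_single, line_add, line_single, add_zero, Finsupp.smul_single,
      smul_eq_mul, Pi.add_apply, Pi.single_eq_same, map_add]
    rw [← Finsupp.single_finsetSum, add_comm (lam (m τ)), add_pow, Finset.mul_sum]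
    congr 1
    refine Finset.sum_congr rfl fun j _ => by ring

theorem indep {N : ℕ} (τ : ι) (lam : ℤ × ℤ →+ ℝ) (w : Fin N → ℤ × ℤ)
    (hw : Function.Injective fun i => lam (w i)) (U : Submodule ℝ ((ι → ℤ × ℤ) →₀ ℝ))
    (hU : ∀ φ ∈ U, Finsupp.mapDomain (line τ) φ = 0 → φ = 0) (ψ : Fin N → (ι → ℤ × ℤ) →₀ ℝ)
    (hψ : ∀ i, ψ i ∈ U) (h0 : ∑ i, shift (Pi.single τ (w i)) (ψ i) = 0) : ∀ i, ψ i = 0 := by
  have hmom : ∀ k : ℕ, ∑ i, lam (w i) ^ k • ψ i = 0 := by
    intro k
    induction k using Nat.strong_induction_on with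
    | _ k ih =>
      refine hU _ (U.sum_mem fun i _ => U.smul_mem _ (hψ i)) ?_
      have h1 := congrArg (wsum τ fun m => lam (m τ) ^ k) h0
      rw [map_sum, map_zero] at h1
      simp only [wsum_shift] at h1
      rw [Finset.sum_comm] at h1
      simp only [← Finset.smul_sum, ← map_sum] at h1
      rw [Finset.sum_range_succ, Finset.sum_eq_zero (fun j hj => by
        rw [ih j (Finset.mem_range.1 hj), map_zero, smul_zero])] at h1
      simp only [zero_add, Nat.choose_self, Nat.cast_one, one_smul, Nat.sub_self, pow_zero,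
        wsum_one, Finsupp.lmapDomain_apply] at h1
      exact h1
  intro i
  ext m
  have := Matrix.eq_zero_of_forall_pow_sum_mul_pow_eq_zero (v := fun i => ψ i m) hw (fun k => by
    have := congrArg (fun φ : (ι → ℤ × ℤ) →₀ ℝ => φ m) (hmom k)
    simp only [Finsupp.coe_finsetSum, Finset.sum_apply, Finsupp.coe_smul, Pi.smul_apply,
      smul_eq_mul, Finsupp.coe_zero, Pi.zero_apply] at this
    simpa [mul_comm] using this)
  exact congrFun this i

theorem rank_step {N : ℕ} (S : Finset ι) (τ : ι) (lam : ℤ × ℤ →+ ℝ) (w : Fin N → ℤ × ℤ)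
    (hw : Function.Injective fun i => lam (w i)) (C C' : Finset (ι → ℤ × ℤ))
    (hC : ∀ i, ∀ m ∈ C, m + Pi.single τ (w i) ∈ C') :
    N * finrank ℝ (V S C) ≤ N * finrank ℝ (V (insert τ S) C) + finrank ℝ (V S C') := by
  have := finite_V S C
  have := finite_V S C'
  have hle : V (insert τ S) C ≤ V S C := fun ψ hψ => by
    rw [mem_V] at hψ ⊢
    exact ⟨hψ.1, fun σ hσ => hψ.2 σ (Finset.mem_insert_of_mem hσ)⟩
  obtain ⟨U₀, hU₀⟩ := Submodule.exists_isCompl (K := ℝ) (V := V S C)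
    ((V (insert τ S) C).comap (V S C).subtype)
  have hdim := Submodule.finrank_add_eq_of_isCompl (K := ℝ) (V := V S C) hU₀
  rw [(Submodule.comapSubtypeEquivOfLe hle).finrank_eq] at hdim
  let U := U₀.map (V S C).subtype
  have hU : ∀ φ ∈ U, Finsupp.mapDomain (line τ) φ = 0 → φ = 0 := by
    rintro _ ⟨φ, hφ, rfl⟩ h
    have h1 : φ ∈ (V (insert τ S) C).comap (V S C).subtype := by
      rw [Submodule.mem_comap, mem_V]
      refine ⟨(mem_V.1 φ.2).1, fun σ hσ => ?_⟩
      rcases Finset.mem_insert.1 hσ with rfl | hσ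
      · exact h
      · exact (mem_V.1 φ.2).2 σ hσ
    have h2 : φ = 0 := by
      have := hU₀.inf_eq_bot ▸ Submodule.mem_inf.2 ⟨h1, hφ⟩
      simpa using this
    simp [h2]
  have hUle : U ≤ V S C := Submodule.map_subtype_le _ _
  have hUdim : finrank ℝ U = finrank ℝ U₀ := Submodule.finrank_map_subtype_eq _ _
  have := Submodule.finiteDimensional_of_le hUle
  let Φ : (Fin N → U) →ₗ[ℝ] V S C' := LinearMap.codRestrict (V S C')
    (∑ i, (shift (Pi.single τ (w i))).comp (U.subtype.comp (LinearMap.proj i))) (fun ψ => by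
        rw [LinearMap.sum_apply]
        exact Submodule.sum_mem _ fun i _ => shift_mem (hC i) (hUle (ψ i).2))
  have hΦ : Function.Injective Φ := by
    rw [injective_iff_map_eq_zero]
    intro ψ hψ
    have h1 : ∑ i, shift (Pi.single τ (w i)) ((ψ i).1) = 0 := by
      have := congrArg Subtype.val hψ
      simpa [Φ] using this
    funext i
    exact Subtype.ext (indep τ lam w hw U hU (fun i => (ψ i).1) (fun i => (ψ i).2) h1 i)
  have h2 := LinearMap.finrank_le_finrank_of_injective hΦ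
  have : Module.Free ℝ U := Module.Free.of_divisionRing ℝ U
  rw [Module.finrank_pi_fintype] at h2
  simp only [Finset.sum_const, Finset.card_univ, Fintype.card_fin, smul_eq_mul] at h2
  rw [← hdim, mul_add, ← hUdim]
  omega

end Pool.Agent.P.MP_e3ef68_co.Lat
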