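import Mathlib
import Pool.Agent.P.MP_e3ef68_co.LMat

/-!
The growing bodies and their volumes.
-/

namespace Pool.Agent.P.MP_e3ef68_co.Lat

open Matrix MeasureTheory
open scoped MatrixOrder

variable {n : Type} [Fintype n] [DecidableEq n] {ι : Type} [Fintype ι] [DecidableEq ι]

/-- The Euclidean ball of squared radius `card n`. -/
def Bd (n : Type) [Fintype n] : Set (n → ℝ) := {z | z ⬝ᵥ z ≤ Fintype.card n}

omit [DecidableEq n] in
theorem sq_le_dot (z : n → ℝ) (i : n) : z i ^ 2 ≤ z ⬝ᵥ z := by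
  rw [dotProduct, sq]
  exact Finset.single_le_sum (f := fun j => z j * z j) (fun j _ => mul_self_nonneg _)
    (Finset.mem_univ i)

omit [DecidableEq n] in
theorem dot_self_nonneg (z : n → ℝ) : 0 ≤ z ⬝ᵥ z :=
  Finset.sum_nonneg fun _ _ => mul_self_nonneg _

omit [DecidableEq n] in
theorem dot_le_sqrt (x y : n → ℝ) : x ⬝ᵥ y ≤ √(x ⬝ᵥ x * y ⬝ᵥ y) := by
  classical
  have h := cs (Y := (1 : Matrix n n ℝ)) PosSemidef.one x y
  simp only [one_mulVec] at h
  exact Real.le_sqrt_of_sq_le h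

omit [DecidableEq n] in
theorem isCompact_Bd : IsCompact (Bd n) := by
  refine Metric.isCompact_of_isClosed_isBounded
    (isClosed_le (by fun_prop) continuous_const) ?_
  refine (Metric.isBounded_closedBall (x := 0) (r := √(Fintype.card n))).subset fun z hz => ?_
  rw [mem_closedBall_zero_iff, pi_norm_le_iff_of_nonneg (Real.sqrt_nonneg _)]
  intro i
  exact Real.abs_le_sqrt ((sq_le_dot z i).trans hz)

omit [DecidableEq n] in
theorem vol_Bd_pos [Nonempty n] : 0 < volume (Bd n) := by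
  have h : IsOpen {z : n → ℝ | z ⬝ᵥ z < Fintype.card n} := isOpen_lt (by fun_prop) continuous_const
  refine lt_of_lt_of_le (h.measure_pos volume ⟨0, ?_⟩) 
    (measure_mono fun z (hz : z ⬝ᵥ z < _) => hz.le)
  simp [Fintype.card_pos]

theorem vol_ell {Q : Matrix n n ℝ} (hQ : Q.PosDef) :
    volume {p : n → ℝ | ∀ g, p ⬝ᵥ g ≤ √(Fintype.card n * (g ⬝ᵥ Q *ᵥ g))} ≤
      ENNReal.ofReal √Q.det * volume (Bd n) := by
  obtain ⟨B, hB⟩ := CStarAlgebra.nonneg_iff_eq_star_mul_self.mp hQ.posSemidef.nonneg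
  have hB' : Q = Bᵀ * B := by simpa [star_eq_conjTranspose] using hB
  have hdet : Q.det = B.det ^ 2 := by rw [hB', det_mul, det_transpose, sq]
  have hu : IsUnit B.det := by
    refine Ne.isUnit fun h => ?_
    have := hQ.det_pos
    rw [hdet, h] at this
    simp at this
  have h1 := Measure.addHaar_image_linearMap (volume : Measure (n → ℝ)) (Matrix.toLin' Bᵀ) (Bd n)
  rw [LinearMap.det_toLin', det_transpose] at h1
  rw [hdet, Real.sqrt_sq_eq_abs, ← h1]
  refine measure_mono fun p hp => ?_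
  set z := (Bᵀ)⁻¹ *ᵥ p with hz
  have hp' : Bᵀ *ᵥ z = p := by
    rw [hz, mulVec_mulVec, mul_nonsing_inv _ (by simpa using hu), one_mulVec]
  refine ⟨z, ?_, by simpa using hp'⟩
  have h2 := hp (B⁻¹ *ᵥ z)
  have h3 : B *ᵥ B⁻¹ *ᵥ z = z := by rw [mulVec_mulVec, mul_nonsing_inv _ hu, one_mulVec]
  have h4 : p ⬝ᵥ B⁻¹ *ᵥ z = z ⬝ᵥ z := by
    rw [← hp', dotProduct_comm, dotProduct_mulVec, vecMul_transpose, h3]
  have h5 : (B⁻¹ *ᵥ z) ⬝ᵥ Q *ᵥ B⁻¹ *ᵥ z = z ⬝ᵥ z := by
    rw [hB', ← mulVec_mulVec, h3, dotProduct_mulVec, vecMul_transpose, h3]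
  rw [h4, h5] at h2
  have h6 := dot_self_nonneg z
  have h7 := (Real.le_sqrt h6 (by positivity)).1 h2
  show z ⬝ᵥ z ≤ _
  rcases h6.eq_or_lt with h | h
  · rw [← h]; positivity
  · nlinarith

theorem second_moment [Nonempty n] (i : n) : ∫ z in Bd n, z i ^ 2 ≤ volume.real (Bd n) := by
  have hsym : ∀ j, ∫ z in Bd n, z j ^ 2 = ∫ z in Bd n, z i ^ 2 := by
    intro j
    let e := MeasurableEquiv.arrowCongr' (Equiv.swap i j) (MeasurableEquiv.refl ℝ)
    have he : ∀ z k, e z k = z (Equiv.swap i j k) := fun z k => rfl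
    have hm : MeasurePreserving e := volume_preserving_arrowCongr' _ _ (MeasurePreserving.id _)
    have h1 := hm.setIntegral_preimage_emb e.measurableEmbedding (fun z => z i ^ 2) (Bd n)
    have h2 : e ⁻¹' Bd n = Bd n := by
      ext z
      simp only [Bd, Set.mem_preimage, Set.mem_ofPred_eq, dotProduct, he]
      rw [Equiv.sum_comp (Equiv.swap i j) fun k => z k * z k]
    simpa [h2, he] using h1
  have hint : ∀ j, IntegrableOn (fun z : n → ℝ => z j ^ 2) (Bd n) := fun j =>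
    (by fun_prop : Continuous fun z : n → ℝ => z j ^ 2).continuousOn.integrableOn_compact
      isCompact_Bd
  have h1 : ∑ j, ∫ z in Bd n, z j ^ 2 ≤ ∫ _ in Bd n, (Fintype.card n : ℝ) := by
    rw [← integral_finsetSum _ fun j _ => hint j]
    refine setIntegral_mono_on (integrable_finsetSum _ fun j _ => hint j)
      (continuous_const.continuousOn.integrableOn_compact isCompact_Bd)
      isCompact_Bd.measurableSet fun z hz => ?_
    simpa [Bd, dotProduct, sq] using hz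
  simp only [hsym, Finset.sum_const, Finset.card_univ, nsmul_eq_mul, integral_const,
    measureReal_restrict_apply_univ, smul_eq_mul] at h1
  have h2 : (0 : ℝ) < Fintype.card n := by exact_mod_cast Fintype.card_pos
  nlinarith

theorem half_ball [Nonempty n] {q : n → ℝ} (hq : ∀ j, 0 < q j) :
    volume.real (Bd n) / 2 ≤ volume.real (Bd n ∩ {z | ∑ j, q j * z j ^ 2 ≤ 2 * ∑ j, q j}) := by
  have hint : ∀ j, IntegrableOn (fun z : n → ℝ => q j * z j ^ 2) (Bd n) := fun j =>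
    (by fun_prop : Continuous fun z : n → ℝ => q j * z j ^ 2).continuousOn.integrableOn_compact
      isCompact_Bd
  have hs : 0 < ∑ j, q j := Finset.sum_pos (fun j _ => hq j) Finset.univ_nonempty
  have h1 := mul_meas_ge_le_integral_of_nonneg (μ := volume.restrict (Bd n))
    (f := fun z => ∑ j, q j * z j ^ 2)
    (Filter.Eventually.of_forall fun z => Finset.sum_nonneg fun j _ => by
      have := hq j; positivity)
    (integrable_finsetSum _ fun j _ => hint j) (2 * ∑ j, q j)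
  have h2 : ∫ z in Bd n, ∑ j, q j * z j ^ 2 ≤ (∑ j, q j) * volume.real (Bd n) := by
    rw [integral_finsetSum _ fun j _ => hint j, Finset.sum_mul]
    refine Finset.sum_le_sum fun j _ => ?_
    rw [integral_const_mul]
    exact mul_le_mul_of_nonneg_left (second_moment j) (hq j).le
  rw [measureReal_restrict_apply (measurableSet_le (by fun_prop) (by fun_prop))] at h1
  have hfin : volume (Bd n) ≠ ⊤ := isCompact_Bd.measure_lt_top.ne
  have h3 : volume.real (Bd n) ≤ volume.real (Bd n ∩ {z | ∑ j, q j * z j ^ 2 ≤ 2 * ∑ j, q j}) +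
      volume.real ({z : n → ℝ | 2 * ∑ j, q j ≤ ∑ j, q j * z j ^ 2} ∩ Bd n) := by
    refine le_trans (measureReal_mono (fun z hz => ?_) ?_) (measureReal_union_le _ _)
    · rcases le_total (∑ j, q j * z j ^ 2) (2 * ∑ j, q j) with h | h
      · exact Or.inl ⟨hz, h⟩
      · exact Or.inr ⟨h, hz⟩
    · exact ne_top_of_le_ne_top hfin (measure_mono (Set.union_subset Set.inter_subset_left
        Set.inter_subset_right))
  have h4 := le_of_mul_le_mul_left (a := ∑ j, q j)
    (b := 2 * volume.real ({z : n → ℝ | 2 * ∑ j, q j ≤ ∑ j, q j * z j ^ 2} ∩ Bd n))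
    (c := volume.real (Bd n)) (by linarith) hs
  linarith

/-- The quadratic form of the growth steps. -/
def Th (u v : ι → n → ℝ) (θ : ι → ℝ) (g : n → ℝ) : ℝ :=
  ∑ τ, θ τ * ((u τ ⬝ᵥ g) ^ 2 + (v τ ⬝ᵥ g) ^ 2)

omit [DecidableEq n] [DecidableEq ι] in
theorem Th_nonneg (u v : ι → n → ℝ) {θ : ι → ℝ} (hθ : 0 ≤ θ) (g : n → ℝ) : 0 ≤ Th u v θ g :=
  Finset.sum_nonneg fun τ _ => mul_nonneg (hθ τ) (by positivity)

/-- The body after `k` growth steps. -/
def Body (q : n → ℝ) (u v : ι → n → ℝ) (k : ℕ) (θ : ι → ℝ) : Set (n → ℝ) :=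
  {p | ∀ g, p ⬝ᵥ g ≤ √(Fintype.card n * ∑ j, q j * g j ^ 2) + √(k * Th u v θ g) ∧
    p ⬝ᵥ g ≤ √((2 * ∑ j, q j) * (g ⬝ᵥ g)) + √(k * Th u v θ g)}

omit [DecidableEq n] [DecidableEq ι] in
theorem measurableSet_Body (q : n → ℝ) (u v : ι → n → ℝ) (k : ℕ) (θ : ι → ℝ) :
    MeasurableSet (Body q u v k θ) := by
  refine IsClosed.measurableSet ?_
  simp only [Body, Set.ofPred_forall, Set.ofPred_and]
  exact isClosed_iInter fun g => IsClosed.inter (isClosed_le (by fun_prop) continuous_const)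
    (isClosed_le (by fun_prop) continuous_const)

theorem sqrt_add_le {a b x y : ℝ} (ha : 0 ≤ a) (hb : 0 ≤ b) (hx : 0 ≤ x) (hy : 0 ≤ y) :
    √(a * x) + √(b * y) ≤ √((a + b) * (x + y)) := by
  refine Real.le_sqrt_of_sq_le ?_
  rw [Real.sqrt_mul ha, Real.sqrt_mul hb]
  have h1 := Real.sq_sqrt ha
  have h2 := Real.sq_sqrt hb
  have h3 := Real.sq_sqrt hx
  have h4 := Real.sq_sqrt hy
  calc _ ≤ (√a ^ 2 + √b ^ 2) * (√x ^ 2 + √y ^ 2) := by nlinarith [sq_nonneg (√a * √y - √b * √x)]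
    _ = _ := by rw [h1, h2, h3, h4]

omit [DecidableEq n] in
theorem Body_grow {q : n → ℝ} {u v : ι → n → ℝ} {k : ℕ} {θ : ι → ℝ} (hθ : 0 ≤ θ) (τ : ι)
    {ϑ a b : ℝ} (hab : a ^ 2 + b ^ 2 ≤ ϑ) {p : n → ℝ} (hp : p ∈ Body q u v k θ) :
    p + (a • u τ + b • v τ) ∈ Body q u v (k + 1) (θ + Pi.single τ ϑ) := by
  intro g
  have hϑ : 0 ≤ ϑ := le_trans (by positivity) hab
  have h1 : Th u v (θ + Pi.single τ ϑ) g =
      Th u v θ g + ϑ * ((u τ ⬝ᵥ g) ^ 2 + (v τ ⬝ᵥ g) ^ 2) := by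
    simp only [Th, Pi.add_apply, add_mul, Finset.sum_add_distrib]
    rw [Finset.sum_eq_single τ
      (f := fun σ => (Pi.single τ ϑ : ι → ℝ) σ * ((u σ ⬝ᵥ g) ^ 2 + (v σ ⬝ᵥ g) ^ 2))
      (fun σ _ h => by simp [h]) (by simp)]
    simp
  have h2 : (a • u τ + b • v τ) ⬝ᵥ g ≤ √(1 * (ϑ * ((u τ ⬝ᵥ g) ^ 2 + (v τ ⬝ᵥ g) ^ 2))) := by
    refine Real.le_sqrt_of_sq_le ?_
    simp only [add_dotProduct, smul_dotProduct, smul_eq_mul, one_mul]
    calc _ ≤ (a ^ 2 + b ^ 2) * ((u τ ⬝ᵥ g) ^ 2 + (v τ ⬝ᵥ g) ^ 2) := by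
          nlinarith [sq_nonneg (a * (v τ ⬝ᵥ g) - b * (u τ ⬝ᵥ g))]
      _ ≤ _ := by gcongr
  have h3 := sqrt_add_le (Nat.cast_nonneg k) zero_le_one (Th_nonneg u v hθ g)
    (y := ϑ * ((u τ ⬝ᵥ g) ^ 2 + (v τ ⬝ᵥ g) ^ 2)) (by positivity)
  rw [add_dotProduct, h1]
  push_cast
  exact ⟨by linarith [(hp g).1], by linarith [(hp g).2]⟩

omit [DecidableEq n] [DecidableEq ι] in
theorem Body_radius {q : n → ℝ} {u v : ι → n → ℝ} {k : ℕ} {θ : ι → ℝ} {t : ℝ}
    (hq : 2 * ∑ j, q j ≤ 1 / 4) (ht : k * t ≤ 1 / 4) (hθ : ∀ g, Th u v θ g ≤ t * (g ⬝ᵥ g))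
    {p : n → ℝ} (hp : p ∈ Body q u v k θ) : p ⬝ᵥ p ≤ 1 := by
  have h0 := dot_self_nonneg p
  have h1 := (hp p).2
  have h2 : √((2 * ∑ j, q j) * (p ⬝ᵥ p)) ≤ √(1 / 4 * (p ⬝ᵥ p)) := by gcongr
  have h3 : √(k * Th u v θ p) ≤ √(1 / 4 * (p ⬝ᵥ p)) := by
    refine Real.sqrt_le_sqrt ?_
    calc k * Th u v θ p ≤ k * (t * (p ⬝ᵥ p)) := by gcongr; exact hθ p
      _ = k * t * (p ⬝ᵥ p) := by ring
      _ ≤ _ := by gcongr
  have h4 := Real.sq_sqrt (show 0 ≤ 1 / 4 * (p ⬝ᵥ p) by positivity)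
  have h5 := Real.sqrt_nonneg (1 / 4 * (p ⬝ᵥ p))
  nlinarith

omit [DecidableEq ι] in
theorem vol_Body_lower [Nonempty n] {q : n → ℝ} (hq : ∀ j, 0 < q j) (u v : ι → n → ℝ) :
    ENNReal.ofReal (√(∏ j, q j) * (volume.real (Bd n) / 2)) ≤ volume (Body q u v 0 0) := by
  set B' := Bd n ∩ {z | ∑ j, q j * z j ^ 2 ≤ 2 * ∑ j, q j} with hB'
  have h1 := Measure.addHaar_image_linearMap (volume : Measure (n → ℝ))
    (Matrix.toLin' (diagonal fun j => √(q j))) B'
  rw [LinearMap.det_toLin', det_diagonal, abs_of_nonneg (by positivity),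
    ← Real.sqrt_prod _ fun j _ => (hq j).le] at h1
  have hfin : volume B' ≠ ⊤ :=
    ne_top_of_le_ne_top isCompact_Bd.measure_lt_top.ne (measure_mono Set.inter_subset_left)
  calc _ ≤ ENNReal.ofReal (√(∏ j, q j) * volume.real B') :=
        ENNReal.ofReal_le_ofReal (mul_le_mul_of_nonneg_left (half_ball hq) (Real.sqrt_nonneg _))
    _ = ENNReal.ofReal √(∏ j, q j) * volume B' := by
        rw [ENNReal.ofReal_mul (Real.sqrt_nonneg _), ofReal_measureReal hfin]
    _ ≤ _ := by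
      rw [← h1]
      refine measure_mono ?_
      rintro _ ⟨z, ⟨hz1, hz2⟩, rfl⟩ g
      have hs : ∀ j, √(q j) * √(q j) = q j := fun j => Real.mul_self_sqrt (hq j).le
      simp only [toLin'_apply, Nat.cast_zero, zero_mul, Real.sqrt_zero, add_zero]
      constructor
      · have h2 : (diagonal fun j => √(q j)) *ᵥ z ⬝ᵥ g = z ⬝ᵥ fun j => √(q j) * g j := by
          simp only [dotProduct, mulVec_diagonal]
          exact Finset.sum_congr rfl fun j _ => by ring
        have h3 : ((fun j => √(q j) * g j) ⬝ᵥ fun j => √(q j) * g j) = ∑ j, q j * g j ^ 2 := by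
          simp only [dotProduct]
          exact Finset.sum_congr rfl fun j _ => by linear_combination (g j ^ 2) * hs j
        rw [h2]
        refine (dot_le_sqrt _ _).trans (Real.sqrt_le_sqrt ?_)
        rw [← h3]
        exact mul_le_mul_of_nonneg_right hz1 (dot_self_nonneg _)
      · refine (dot_le_sqrt _ _).trans (Real.sqrt_le_sqrt ?_)
        refine mul_le_mul_of_nonneg_right (le_trans (le_of_eq ?_) hz2) (dot_self_nonneg _)
        simp only [dotProduct, mulVec_diagonal]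
        exact Finset.sum_congr rfl fun j _ => by linear_combination (z j ^ 2) * hs j

omit [DecidableEq ι] in
theorem vol_Body_upper [Nonempty n] {q : n → ℝ} (hq : ∀ j, 0 < q j) (u v : ι → n → ℝ) {k : ℕ}
    {θ : ι → ℝ} (hθ : 0 ≤ θ) (hk : ∑ τ, θ τ * ∑ j, (u τ j ^ 2 + v τ j ^ 2) / q j ≤ k) :
    volume (Body q u v k θ) ≤
      ENNReal.ofReal (√(∏ j, q j) * Real.exp k * volume.real (Bd n)) := by
  have hd : (0 : ℝ) < Fintype.card n := by exact_mod_cast Fintype.card_pos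
  set d := Fintype.card n with hdd
  set Q : Matrix n n ℝ := diagonal q + ∑ τ, θ τ • Pm (u τ) (v τ) with hQ
  have hform : ∀ g, g ⬝ᵥ Q *ᵥ g = ∑ j, q j * g j ^ 2 + Th u v θ g := by
    intro g
    simp only [hQ, add_mulVec, dotProduct_add, sum_mulVec, dotProduct_sum, smul_mulVec,
      dotProduct_smul, smul_eq_mul, form_Pm, Th]
    congr 1
    simp only [dotProduct, mulVec_diagonal]
    exact Finset.sum_congr rfl fun j _ => by ring
  have hq2 : ∀ g : n → ℝ, 0 ≤ ∑ j, q j * g j ^ 2 := fun g =>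
    Finset.sum_nonneg fun j _ => by have := hq j; positivity
  have hQd : Q.PosDef := by
    refine (PosDef.diagonal hq).add_posSemidef (posSemidef_sum _ fun τ _ => ?_)
    refine .of_dotProduct_mulVec_nonneg ((herm_Pm _ _).smul (IsSelfAdjoint.all _)) fun g => ?_
    simp only [star_trivial, smul_mulVec, dotProduct_smul, smul_eq_mul, form_Pm]
    exact mul_nonneg (hθ τ) (by positivity)
  have hdet : Q.det ≤ (∏ j, q j) * Real.exp k := by
    set D : Matrix n n ℝ := diagonal fun j => (√(q j))⁻¹ with hD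
    have hs : ∀ j, (√(q j))⁻¹ * (√(q j))⁻¹ = (q j)⁻¹ := fun j => by
      rw [← mul_inv, Real.mul_self_sqrt (hq j).le]
    have h1 := det_le_exp (hQd.posSemidef.conjTranspose_mul_mul_same D) zero_lt_one
    have hDt : Dᴴ = D := by simp [hD]
    rw [hDt, one_pow, one_mul, div_one] at h1
    have h2 : (D * Q * D).det = (∏ j, q j)⁻¹ * Q.det := by
      rw [det_mul, det_mul, hD, det_diagonal, ← Finset.prod_inv_distrib, mul_right_comm,
        ← Finset.prod_mul_distrib]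
      simp only [hs]
    have h3 : (D * Q * D).trace = d + ∑ τ, θ τ * ∑ j, (u τ j ^ 2 + v τ j ^ 2) / q j := by
      have h4 : ∀ j, (D * Q * D) j j = 1 + ∑ τ, θ τ * ((u τ j ^ 2 + v τ j ^ 2) / q j) := by
        intro j
        rw [hD, mul_diagonal, diagonal_mul, mul_right_comm, hs, hQ]
        simp only [Matrix.add_apply, diagonal_apply_eq, Matrix.sum_apply, Matrix.smul_apply, Pm,
          vecMulVec_apply, smul_eq_mul, mul_add, Finset.mul_sum, inv_mul_cancel₀ (hq j).ne']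
        congr 1
        exact Finset.sum_congr rfl fun τ _ => by ring
      simp only [trace, diag_apply, h4, Finset.sum_add_distrib, Finset.sum_const, Finset.card_univ,
        nsmul_eq_mul, mul_one, Finset.mul_sum]
      rw [Finset.sum_comm]
    rw [h2, h3, inv_mul_le_iff₀ (Finset.prod_pos fun j _ => hq j)] at h1
    refine h1.trans (mul_le_mul_of_nonneg_left (Real.exp_le_exp.2 (by linarith))
      (Finset.prod_pos fun j _ => hq j).le)
  have hQ' : (Real.exp (k / d) • Q).PosDef := hQd.smul (Real.exp_pos _)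
  refine le_trans (measure_mono ?_) ((vol_ell hQ').trans ?_)
  · intro p hp g
    refine (hp g).1.trans ((sqrt_add_le hd.le (Nat.cast_nonneg k) (hq2 g)
      (Th_nonneg u v hθ g)).trans (Real.sqrt_le_sqrt ?_))
    rw [smul_mulVec, dotProduct_smul, hform, smul_eq_mul, ← mul_assoc]
    refine mul_le_mul_of_nonneg_right ?_ (add_nonneg (hq2 g) (Th_nonneg u v hθ g))
    have := mul_le_mul_of_nonneg_left (Real.add_one_le_exp (k / d)) hd.le
    rw [mul_add, mul_div_cancel₀ _ hd.ne'] at this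
    linarith
  · rw [ENNReal.ofReal_mul (by positivity), ofReal_measureReal isCompact_Bd.measure_lt_top.ne]
    refine mul_le_mul_left (ENNReal.ofReal_le_ofReal ?_) _
    rw [det_smul, ← Real.exp_nat_mul, ← hdd, mul_div_cancel₀ _ hd.ne']
    refine Real.sqrt_le_iff.2 ⟨by positivity, ?_⟩
    rw [mul_pow, Real.sq_sqrt (Finset.prod_pos fun j _ => hq j).le]
    nlinarith [mul_le_mul_of_nonneg_left hdet (Real.exp_pos k).le]

end Pool.Agent.P.MP_e3ef68_co.Lat
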