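import Mathlib
import Pool.Agent.P.MP_e3ef68_co.LRank
import Pool.Agent.P.MP_e3ef68_co.LGame
import Pool.Agent.P.MP_e3ef68_co.LVol

/-!
Avoiding finitely many thin square tubes.
-/

namespace Pool.Agent.P.MP_e3ef68_co.Lat

open Matrix MeasureTheory Module
open scoped ENNReal

variable {n : Type} [Fintype n] [DecidableEq n] {ι : Type} [Fintype ι] [DecidableEq ι]

/-- The displacement attached to a lattice point. -/
def pp (s : ℝ) (u v : ι → n → ℝ) (m : ι → ℤ × ℤ) : n → ℝ :=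
  ∑ τ, ((s * (m τ).1) • u τ + (s * (m τ).2) • v τ)

omit [Fintype n] [DecidableEq n] in
theorem pp_add (s : ℝ) (u v : ι → n → ℝ) (m : ι → ℤ × ℤ) (τ : ι) (w : ℤ × ℤ) :
    pp s u v (m + Pi.single τ w) = pp s u v m + ((s * w.1) • u τ + (s * w.2) • v τ) := by
  rw [pp, pp, ← Finset.add_sum_erase _ _ (Finset.mem_univ τ),
    ← Finset.add_sum_erase _ _ (Finset.mem_univ τ)]
  rw [Finset.sum_congr rfl (g := fun σ => (s * (m σ).1) • u σ + (s * (m σ).2) • v σ)
    fun σ hσ => by simp [Finset.ne_of_mem_erase hσ]]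
  simp only [Pi.add_apply, Pi.single_eq_same, Prod.fst_add, Prod.snd_add, Int.cast_add, mul_add,
    add_smul]
  abel

/-- The box of lattice points. -/
noncomputable def Box (ι : Type) [Fintype ι] [DecidableEq ι] (T : ℕ) : Finset (ι → ℤ × ℤ) :=
  Fintype.piFinset fun _ => Finset.Icc (-(T : ℤ)) T ×ˢ Finset.Icc (-(T : ℤ)) T

theorem card_Box (T : ℕ) : (Box ι T).card = (2 * T + 1) ^ (2 * Fintype.card ι) := by
  have h : ((T : ℤ) + 1 - -(T : ℤ)).toNat = 2 * T + 1 := by omega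
  simp only [Box, Fintype.card_piFinset, Finset.card_product, Int.card_Icc, h, Finset.prod_const,
    Finset.card_univ]
  rw [pow_mul, sq]

theorem card_Box_le (r k : ℕ) : ((Box ι (2 * Fintype.card ι * r + k * r)).card : ℝ) ≤
    (Box ι (2 * Fintype.card ι * r)).card * Real.exp k := by
  simp only [card_Box]
  push_cast
  set N : ℝ := (Fintype.card ι : ℝ) with hNN
  have hN : 0 ≤ N := Nat.cast_nonneg _
  have hp : 0 < 2 * (2 * N * r) + 1 := by positivity
  have h1 : 2 * (2 * N * r + k * r) + 1 ≤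
      (2 * (2 * N * r) + 1) * Real.exp (2 * k * r / (2 * (2 * N * r) + 1)) := by
    have := mul_le_mul_of_nonneg_left
      (Real.add_one_le_exp (2 * k * r / (2 * (2 * N * r) + 1))) hp.le
    rw [mul_add, mul_div_cancel₀ _ hp.ne'] at this
    linarith
  refine (pow_le_pow_left₀ (by positivity) h1 _).trans ?_
  rw [mul_pow, ← Real.exp_nat_mul]
  refine mul_le_mul_of_nonneg_left (Real.exp_le_exp.2 ?_) (by positivity)
  push_cast
  rw [← mul_div_assoc, div_le_iff₀ hp]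
  nlinarith [(Nat.cast_nonneg k : (0 : ℝ) ≤ k)]

open Classical in
/-- Lattice points of the box whose displacement from `y` lies in `K`. -/
noncomputable def Cf (s : ℝ) (u v : ι → n → ℝ) (K : Set (n → ℝ)) (T : ℕ) (y : n → ℝ) :
    Finset (ι → ℤ × ℤ) := (Box ι T).filter fun m => y + pp s u v m ∈ K

omit [Fintype n] [DecidableEq n] in
theorem measurable_Cf (s : ℝ) (u v : ι → n → ℝ) {K : Set (n → ℝ)} (hK : MeasurableSet K) (T : ℕ)
    (φ : Finset (ι → ℤ × ℤ) → ℝ≥0∞) : Measurable fun y => φ (Cf s u v K T y) := by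
  classical
  have h1 : Measurable fun (y : n → ℝ) (m : Box ι T) => y + pp s u v m ∈ K :=
    measurable_pi_lambda _ fun m =>
      measurableSet_setOfPred.1 ((measurable_add_const (pp s u v m)) hK)
  have h2 := (Measurable.of_discrete (f := fun P : Box ι T → Prop =>
    φ ((Box ι T).filter fun m => ∃ h : m ∈ Box ι T, P ⟨m, h⟩))).comp h1
  convert h2 using 2 with y
  simp only [Function.comp_apply]
  congr 1
  ext m
  simp [Cf]

omit [DecidableEq n] in
theorem lintegral_card (s : ℝ) (u v : ι → n → ℝ) {K : Set (n → ℝ)} (hK : MeasurableSet K)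
    (T : ℕ) : ∫⁻ y, ((Cf s u v K T y).card : ℝ≥0∞) = (Box ι T).card * volume K := by
  classical
  have h1 : ∀ y, ((Cf s u v K T y).card : ℝ≥0∞) =
      ∑ m ∈ Box ι T, ((· + pp s u v m) ⁻¹' K).indicator 1 y := by
    intro y
    rw [Cf, Finset.card_filter]
    push_cast
    exact Finset.sum_congr rfl fun m _ => by simp [Set.indicator_apply]
  simp only [h1]
  rw [lintegral_finsetSum _ fun m _ => measurable_one.indicator (measurable_add_const _ hK)]
  simp only [fun m => lintegral_indicator_one (μ := volume)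
    (measurable_add_const (pp s u v m) hK), measure_preimage_add_right]
  simp

/-- The averaged dimension. -/
noncomputable def FF (s : ℝ) (u v : ι → n → ℝ) (S : Finset ι) (K : Set (n → ℝ)) (T : ℕ) : ℝ≥0∞ :=
  ∫⁻ y, (finrank ℝ (V S (Cf s u v K T y)) : ℝ≥0∞)

omit [DecidableEq n] in
theorem FF_le (s : ℝ) (u v : ι → n → ℝ) (S : Finset ι) {K : Set (n → ℝ)} (hK : MeasurableSet K)
    (T : ℕ) : FF s u v S K T ≤ (Box ι T).card * volume K := by
  rw [← lintegral_card s u v hK]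
  exact lintegral_mono fun y => Nat.cast_le.2 (finrank_V_le _ _)

omit [DecidableEq n] in
theorem FF_empty (s : ℝ) (u v : ι → n → ℝ) {K : Set (n → ℝ)} (hK : MeasurableSet K)
    (T : ℕ) : FF s u v ∅ K T = (Box ι T).card * volume K := by
  rw [← lintegral_card s u v hK]
  simp only [FF, finrank_V_empty]

omit [DecidableEq n] in
theorem FF_step (s : ℝ) (u v : ι → n → ℝ) (S : Finset ι) (τ : ι) {K K' : Set (n → ℝ)}
    (hK' : MeasurableSet K') {T T' J : ℕ} (hT : T + J ≤ T')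
    (hKK : ∀ p ∈ K, ∀ a b : ℕ, a ≤ J → b ≤ J → p + ((s * a) • u τ + (s * b) • v τ) ∈ K') :
    (J * J : ℕ) * FF s u v S K T ≤
      (J * J : ℕ) * FF s u v (insert τ S) K T + FF s u v S K' T' := by
  classical
  let lam : ℤ × ℤ →+ ℝ :=
    { toFun := fun w => w.1 + J * w.2
      map_zero' := by simp
      map_add' := fun a b => by simp; ring }
  let w : Fin (J * J) → ℤ × ℤ := fun i => (((i : ℕ) % J : ℕ), ((i : ℕ) / J : ℕ))
  have hw : Function.Injective fun i => lam (w i) := by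
    have : ∀ i, lam (w i) = (i : ℕ) := fun i => by
      have h := Nat.mod_add_div (i : ℕ) J
      show ((((i : ℕ) % J : ℕ) : ℤ) : ℝ) + J * ((((i : ℕ) / J : ℕ) : ℤ) : ℝ) = _
      exact_mod_cast h
    intro i j h
    simp only [this] at h
    exact Fin.ext (by exact_mod_cast h)
  have hw1 : ∀ i : Fin (J * J), (i : ℕ) % J ≤ J ∧ (i : ℕ) / J ≤ J := fun i => by
    have hJ : 0 < J := Nat.pos_of_ne_zero fun h => by
      have := i.2
      simp [h] at this
    exact ⟨(Nat.mod_lt _ hJ).le, Nat.div_le_of_le_mul i.2.le⟩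
  rw [FF, FF, FF, ← lintegral_const_mul' _ _ (ENNReal.natCast_ne_top _),
    ← lintegral_const_mul' _ _ (ENNReal.natCast_ne_top _), ← lintegral_add_right _
      (measurable_Cf s u v hK' T' fun C => (finrank ℝ (V S C) : ℝ≥0∞))]
  refine lintegral_mono fun y => ?_
  have := rank_step S τ lam w hw (Cf s u v K T y) (Cf s u v K' T' y) fun i m hm => by
    simp only [Cf, Box, Finset.mem_filter, Fintype.mem_piFinset, Finset.mem_product,
      Finset.mem_Icc] at hm ⊢
    obtain ⟨h1, h2⟩ := hw1 i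
    refine ⟨fun σ => ?_, ?_⟩
    · have := hm.1 σ
      by_cases h : σ = τ
      · subst h
        simp only [w, Pi.add_apply, Pi.single_eq_same, Prod.fst_add, Prod.snd_add]
        generalize (i : ℕ) % J = a at *
        generalize (i : ℕ) / J = b at *
        omega
      · simp only [Pi.add_apply, Pi.single_eq_of_ne h, add_zero]
        omega
    · rw [pp_add, ← add_assoc]
      simpa only [w, Int.cast_natCast] using hKK _ hm.2 _ _ h1 h2
  have h3 := (Nat.cast_le (α := ℝ≥0∞)).2 this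
  push_cast at h3 ⊢
  exact h3

omit [DecidableEq n] in
/-- Bang's maximisation over the support. -/
theorem bang {s : ℝ} (hs : 0 < s) {u v : ι → n → ℝ} (hu : ∀ τ, u τ ⬝ᵥ u τ = 1)
    (hv : ∀ τ, v τ ⬝ᵥ v τ = 1) (huv : ∀ τ, u τ ⬝ᵥ v τ = 0) (c₁ c₂ : ι → ℝ) (y : n → ℝ)
    {ψ : (ι → ℤ × ℤ) →₀ ℝ} (hψ : ψ ≠ 0) (h : ∀ τ, Finsupp.mapDomain (line τ) ψ = 0) :
    ∃ m ∈ ψ.support, ∀ τ, s / 2 ≤ |u τ ⬝ᵥ (y + pp s u v m) - c₁ τ| ∨
      s / 2 ≤ |v τ ⬝ᵥ (y + pp s u v m) - c₂ τ| := by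
  let L : (ι → ℤ × ℤ) → ℝ := fun m => ∑ τ, s * ((m τ).1 * c₁ τ + (m τ).2 * c₂ τ)
  have hL : ∀ m τ w, L (m + Pi.single τ w) = L m + s * (w.1 * c₁ τ + w.2 * c₂ τ) := by
    intro m τ w
    simp only [L]
    rw [← Finset.add_sum_erase _ _ (Finset.mem_univ τ),
      ← Finset.add_sum_erase _ _ (Finset.mem_univ τ)]
    rw [Finset.sum_congr rfl (g := fun σ => s * ((m σ).1 * c₁ σ + (m σ).2 * c₂ σ))
      fun σ hσ => by simp [Finset.ne_of_mem_erase hσ]]
    simp only [Pi.add_apply, Pi.single_eq_same, Prod.fst_add, Prod.snd_add, Int.cast_add]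
    ring
  obtain ⟨m, hm, hmax⟩ := ψ.support.exists_max_image
    (fun m => (y + pp s u v m) ⬝ᵥ (y + pp s u v m) / 2 - L m) (Finsupp.support_nonempty_iff.2 hψ)
  refine ⟨m, hm, fun τ => ?_⟩
  obtain ⟨w, hw0, hw⟩ := partner (h τ) hm
  have h1 := hmax _ hw
  rw [hL, pp_add, ← add_assoc] at h1
  set x := y + pp s u v m
  simp only [add_dotProduct, dotProduct_add, smul_dotProduct, dotProduct_smul, smul_eq_mul, hu, hv,
    huv, dotProduct_comm (v τ) (u τ), dotProduct_comm x (u τ), dotProduct_comm x (v τ)] at h1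
  by_contra hcon
  push Not at hcon
  obtain ⟨ha, hb⟩ := hcon
  have key : ∀ (z : ℤ) (a : ℝ), |a| < s / 2 →
      0 ≤ z * a + s * z ^ 2 / 2 ∧ (z ≠ 0 → 0 < z * a + s * z ^ 2 / 2) := by
    intro z a ha
    have h2 : z ≠ 0 → 0 < z * a + s * z ^ 2 / 2 := by
      intro hz
      have h3 : (1 : ℝ) ≤ |(z : ℝ)| := by exact_mod_cast Int.one_le_abs hz
      have h4 : -(|(z : ℝ)| * |a|) ≤ z * a := by rw [← abs_mul]; exact neg_abs_le _
      have h5 : (z : ℝ) ^ 2 = |(z : ℝ)| ^ 2 := (sq_abs _).symm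
      rw [h5]
      nlinarith [mul_lt_mul_of_pos_left ha (show 0 < |(z : ℝ)| by linarith),
        mul_nonneg (mul_nonneg hs.le (show 0 ≤ |(z : ℝ)| by linarith)) (sub_nonneg.2 h3)]
    refine ⟨?_, h2⟩
    by_cases hz : z = 0
    · simp [hz]
    · exact (h2 hz).le
  obtain ⟨k1, k1'⟩ := key w.1 _ ha
  obtain ⟨k2, k2'⟩ := key w.2 _ hb
  have h6 : 0 < (w.1 * (u τ ⬝ᵥ x - c₁ τ) + s * w.1 ^ 2 / 2) +
      (w.2 * (v τ ⬝ᵥ x - c₂ τ) + s * w.2 ^ 2 / 2) := by
    by_cases h7 : w.1 = 0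
    · have h8 : w.2 ≠ 0 := fun h8 => hw0 (Prod.ext h7 h8)
      linarith [k2' h8]
    · linarith [k1' h7]
  nlinarith [mul_pos hs h6]

theorem token [Nonempty n] {u v : ι → n → ℝ} (hu : ∀ τ, u τ ⬝ᵥ u τ = 1)
    (hv : ∀ τ, v τ ⬝ᵥ v τ = 1) (huv : ∀ τ, u τ ⬝ᵥ v τ = 0) {q : n → ℝ} (hq : ∀ j, 0 < q j)
    (hq1 : 2 * ∑ j, q j ≤ 1 / 4) {s m Λ A t K : ℝ} (hs : 0 < s) (hm : 0 < m)
    (ht : t = 64 * GG * m) (hK : K = 16 * GG * Λ + 128 * GG * A / t + 1) (hKt : K * t ≤ 1 / 4)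
    (hM : ∀ g, ∑ τ, s ^ 2 * ((u τ ⬝ᵥ g) ^ 2 + (v τ ⬝ᵥ g) ^ 2) ≤ m * (g ⬝ᵥ g))
    (hΛ : s ^ 2 * ∑ τ, ∑ j, (u τ j ^ 2 + v τ j ^ 2) / q j ≤ Λ) (hA : s ^ 2 * Fintype.card ι ≤ A)
    (hsmall : 16 * GG * s ^ 2 * (∑ j, 2 / q j + 2 * (Real.exp (2 + K) / t)) ≤ 1)
    (c₁ c₂ : ι → ℝ) :
    ∃ x : n → ℝ, x ⬝ᵥ x ≤ 1 ∧ ∀ τ, s / 2 ≤ |u τ ⬝ᵥ x - c₁ τ| ∨ s / 2 ≤ |v τ ⬝ᵥ x - c₂ τ| := by
  have hG := two_le_GG
  have htpos : 0 < t := by rw [ht]; positivity
  set Q : ι → ℝ := fun τ => ∑ j, (u τ j ^ 2 + v τ j ^ 2) / q j with hQ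
  have hQpos : ∀ τ, 0 < Q τ := by
    intro τ
    obtain ⟨j, hj⟩ : ∃ j, u τ j ≠ 0 := by
      by_contra h
      push Not at h
      have := hu τ
      simp [dotProduct, h] at this
    refine Finset.sum_pos' (fun j _ => by have := hq j; positivity) ⟨j, Finset.mem_univ j, ?_⟩
    have := hq j
    positivity
  have hQle : ∀ τ, Q τ ≤ ∑ j, 2 / q j := fun τ => Finset.sum_le_sum fun j _ => by
    have h1 := sq_le_dot (u τ) j
    have h2 := sq_le_dot (v τ) j
    rw [hu] at h1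
    rw [hv] at h2
    exact div_le_div_of_nonneg_right (by linarith) (hq j).le
  set r : ℕ := ⌈∑ τ, 1 / (s ^ 2 * Q τ)⌉₊ with hr
  set T₀ := 2 * Fintype.card ι * r with hT₀
  set W := √(∏ j, q j) with hW
  have hWpos : 0 < W := Real.sqrt_pos.2 (Finset.prod_pos fun j _ => hq j)
  set ω := volume.real (Bd n) with hω
  have hωpos : 0 < ω := ENNReal.toReal_pos vol_Bd_pos.ne' isCompact_Bd.measure_lt_top.ne
  have hbox : (0 : ℝ) < (Box ι T₀).card := by rw [card_Box]; positivity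
  have hup : ∀ S (k : ℕ) θ, 0 ≤ θ → ∑ τ, θ τ * Q τ ≤ k → FF s u v S (Body q u v k θ) (T₀ + k * r) ≤
      ENNReal.ofReal (2 * ((Box ι T₀).card * (W * (ω / 2))) * Real.exp (3 * k)) := by
    intro S k θ hθ hk
    refine (FF_le s u v S (measurableSet_Body q u v k θ) _).trans ?_
    refine (mul_le_mul_right (vol_Body_upper hq u v hθ hk) _).trans ?_
    rw [← ENNReal.ofReal_natCast, ← ENNReal.ofReal_mul (Nat.cast_nonneg _)]
    refine ENNReal.ofReal_le_ofReal ?_
    calc _ ≤ ((Box ι T₀).card * Real.exp k) * (W * Real.exp k * ω) :=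
          mul_le_mul_of_nonneg_right (card_Box_le r k) (by positivity)
      _ = (Box ι T₀).card * W * ω * Real.exp (k + k) := by rw [Real.exp_add]; ring
      _ ≤ (Box ι T₀).card * W * ω * Real.exp (3 * k) := by
          gcongr; linarith [(Nat.cast_nonneg k : (0 : ℝ) ≤ k)]
      _ = _ := by ring
  have hfin : ∀ S (k : ℕ) θ, 0 ≤ θ → ∑ τ, θ τ * Q τ ≤ k →
      FF s u v S (Body q u v k θ) (T₀ + k * r) ≠ ⊤ := fun S k θ hθ hk =>
    ne_top_of_le_ne_top ENNReal.ofReal_ne_top (hup S k θ hθ hk)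
  obtain ⟨k, θ, hθ, hk, hform, hpos⟩ := game hu hv Q hQpos (α := s ^ 2)
    (F₀ := (Box ι T₀).card * (W * (ω / 2))) (by positivity) hm (by positivity) ht hK hM hΛ hA
    (fun τ => le_trans (by have := hQle τ; gcongr) hsmall)
    (fun S k θ => (FF s u v S (Body q u v k θ) (T₀ + k * r)).toReal)
    (by
      refine (ENNReal.ofReal_le_iff_le_toReal (hfin ∅ 0 0 le_rfl (by simp))).1 ?_
      rw [FF_empty s u v (measurableSet_Body q u v 0 0), zero_mul, add_zero,
        ENNReal.ofReal_mul (Nat.cast_nonneg _), ENNReal.ofReal_natCast]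
      exact mul_le_mul_right (vol_Body_lower hq u v) _)
    (fun S k θ hθ hk => ENNReal.toReal_le_of_le_ofReal (by positivity) (hup S k θ hθ hk))
    (by
      intro S k θ τ ϑ hθ hk hϑ hϑq
      have hs2 : 0 < s ^ 2 := by positivity
      have hϑ0 : 0 < ϑ := by linarith
      set J := ⌊√(ϑ / (2 * s ^ 2))⌋₊ with hJ
      have hx1 : 1 ≤ ϑ / (2 * s ^ 2) := by rw [le_div_iff₀ (by positivity)]; linarith
      have hsq := Real.sq_sqrt (show 0 ≤ ϑ / (2 * s ^ 2) by linarith)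
      have hJ1 : (J : ℝ) ≤ √(ϑ / (2 * s ^ 2)) := Nat.floor_le (Real.sqrt_nonneg _)
      have hJ2 : √(ϑ / (2 * s ^ 2)) < J + 1 := Nat.lt_floor_add_one _
      have hJ3 : 1 ≤ J := Nat.le_floor (by simpa using hx1)
      have hJ3' : (1 : ℝ) ≤ J := by exact_mod_cast hJ3
      have hJ4 : (J : ℝ) ^ 2 ≤ ϑ / (2 * s ^ 2) := by
        rw [← hsq]; gcongr
      have hJ5 : ϑ / (2 * s ^ 2) ≤ 4 * (J : ℝ) ^ 2 := by
        rw [← hsq]; nlinarith [Real.sqrt_nonneg (ϑ / (2 * s ^ 2))]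
      have hJr : J ≤ r := by
        have h1 : (J : ℝ) ≤ 1 / (s ^ 2 * Q τ) := by
          have h2 := hQpos τ
          rw [le_div_iff₀ (by positivity)] at hJ4 ⊢
          nlinarith [mul_le_mul_of_nonneg_right hJ4 h2.le, mul_pos hs2 h2,
            mul_nonneg (mul_pos hs2 h2).le (mul_nonneg (Nat.cast_nonneg J) (sub_nonneg.2 hJ3'))]
        have h3 : 1 / (s ^ 2 * Q τ) ≤ ∑ τ, 1 / (s ^ 2 * Q τ) :=
          Finset.single_le_sum (f := fun τ => 1 / (s ^ 2 * Q τ))
            (fun σ _ => by have := hQpos σ; positivity) (Finset.mem_univ τ)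
        exact_mod_cast (h1.trans h3).trans (Nat.le_ceil _)
      have hθ' : 0 ≤ θ + Pi.single τ ϑ := fun σ => by
        refine add_nonneg (hθ σ) ?_
        by_cases h : σ = τ
        · subst h; simpa using hϑ0.le
        · simp [h]
      have hk' : ∑ σ, (θ + Pi.single τ ϑ : ι → ℝ) σ * Q σ ≤ (k + 1 : ℕ) := by
        simp only [Pi.add_apply, add_mul, Finset.sum_add_distrib]
        rw [Finset.sum_eq_single τ (f := fun σ => (Pi.single τ ϑ : ι → ℝ) σ * Q σ)
          (fun σ _ h => by simp [h]) (by simp)]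
        simp only [Pi.single_eq_same]
        push_cast
        linarith
      have h1 := FF_step s u v S τ (K := Body q u v k θ)
        (measurableSet_Body q u v (k + 1) (θ + Pi.single τ ϑ)) (T := T₀ + k * r)
        (T' := T₀ + (k + 1) * r) (J := J) (by nlinarith) fun p hp a b ha hb =>
          Body_grow hθ τ (by
            have ha' : (a : ℝ) ≤ J := by exact_mod_cast ha
            have hb' : (b : ℝ) ≤ J := by exact_mod_cast hb
            rw [le_div_iff₀ (by positivity)] at hJ4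
            calc (s * a) ^ 2 + (s * b) ^ 2 ≤ (s * J) ^ 2 + (s * J) ^ 2 := by gcongr
              _ ≤ ϑ := by linarith) hp
      have f1 := hfin (insert τ S) k θ hθ hk
      have f2 := hfin S (k + 1) _ hθ' hk'
      have h2 := ENNReal.toReal_mono (by finiteness) h1
      rw [ENNReal.toReal_add (by finiteness) f2, ENNReal.toReal_mul, ENNReal.toReal_mul,
        ENNReal.toReal_natCast] at h2
      push_cast at h2
      have hJJ : (0 : ℝ) < J * J := by positivity
      have h3 : 1 ≤ (J * J : ℝ) * (8 * s ^ 2 / ϑ) := by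
        rw [div_le_iff₀ (by positivity)] at hJ5
        rw [← mul_div_assoc, le_div_iff₀ hϑ0]
        linarith
      refine le_of_mul_le_mul_left (h2.trans ?_) hJJ
      rw [mul_add, ← mul_assoc]
      exact add_le_add le_rfl (le_mul_of_one_le_left ENNReal.toReal_nonneg h3))
  obtain ⟨y, hy⟩ : ∃ y, finrank ℝ (V Finset.univ (Cf s u v (Body q u v k θ) (T₀ + k * r) y)) ≠ 0 := by
    by_contra h
    push Not at h
    simp [FF, h] at hpos
  obtain ⟨ψ, hψ, hψ0⟩ : ∃ ψ ∈ V Finset.univ (Cf s u v (Body q u v k θ) (T₀ + k * r) y), ψ ≠ 0 := by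
    refine (Submodule.ne_bot_iff _).1 fun h => hy ?_
    rw [h, finrank_bot]
  rw [mem_V] at hψ
  obtain ⟨x, hx, hx2⟩ := bang hs hu hv huv c₁ c₂ y hψ0 fun τ => hψ.2 τ (Finset.mem_univ τ)
  refine ⟨_, Body_radius hq1 (le_trans (by gcongr) hKt) hform ?_, hx2⟩
  have := hψ.1 hx
  simp only [Cf, Finset.mem_filter] at this
  exact this.2

end Pool.Agent.P.MP_e3ef68_co.Lat
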