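import Mathlib
import Pool.Agent.P.MP_e3ef68_co.LToken

/-!
Reduction of arbitrary planar bases to thin squares.
-/

namespace Pool.Agent.P.MP_e3ef68_co.Lat

open Matrix MeasureTheory
open scoped ENNReal

variable {n : Type} [Fintype n]

/-- A half-open grid square. -/
def Sq (l : ℝ) (j : ℤ × ℤ) : Set (ℝ × ℝ) := {p | ⌊p.1 / l⌋ = j.1 ∧ ⌊p.2 / l⌋ = j.2}

theorem floor_iff {l : ℝ} (hl : 0 < l) (x : ℝ) (j : ℤ) :
    ⌊x / l⌋ = j ↔ j * l ≤ x ∧ x < (j + 1) * l := by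
  rw [Int.floor_eq_iff, le_div_iff₀ hl, div_lt_iff₀ hl]

theorem Sq_eq {l : ℝ} (hl : 0 < l) (j : ℤ × ℤ) :
    Sq l j = Set.Ico (j.1 * l) ((j.1 + 1) * l) ×ˢ Set.Ico (j.2 * l) ((j.2 + 1) * l) := by
  ext p
  simp only [Sq, Set.mem_ofPred_eq, floor_iff hl, Set.mem_prod, Set.mem_Ico]

theorem vol_Sq {l : ℝ} (hl : 0 < l) (j : ℤ × ℤ) : volume (Sq l j) = ENNReal.ofReal (l ^ 2) := by
  rw [Sq_eq hl, Measure.volume_eq_prod, Measure.prod_prod, Real.volume_Ico, Real.volume_Ico,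
    ← ENNReal.ofReal_mul (by linarith)]
  congr 1
  ring

theorem card_Sq_le {l a : ℝ} (hl : 0 < l) (ha : 0 ≤ a) {O : Set (ℝ × ℝ)}
    (hO : volume O ≤ ENNReal.ofReal a) (T : Finset (ℤ × ℤ)) (hT : ∀ j ∈ T, Sq l j ⊆ O) :
    l ^ 2 * T.card ≤ a := by
  have h1 := measure_biUnion_finset (μ := volume) (s := T) (f := Sq l)
    (fun i _ j _ hij => Set.disjoint_left.2 fun p hp hq =>
      hij (Prod.ext (hp.1.symm.trans hq.1) (hp.2.symm.trans hq.2)))
    (fun j _ => by rw [Sq_eq hl]; exact measurableSet_Ico.prod measurableSet_Ico)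
  have h2 := (measure_mono (μ := volume) (Set.iUnion₂_subset hT)).trans hO
  rw [h1] at h2
  simp only [vol_Sq hl, Finset.sum_const, nsmul_eq_mul] at h2
  rw [← ENNReal.ofReal_natCast, ← ENNReal.ofReal_mul (Nat.cast_nonneg _),
    ENNReal.ofReal_le_ofReal_iff ha] at h2
  linarith

theorem abs_dot_le {w x : n → ℝ} (hw : w ⬝ᵥ w = 1) (hx : x ⬝ᵥ x ≤ 1) : |w ⬝ᵥ x| ≤ 1 := by
  classical
  have h := cs (Y := (1 : Matrix n n ℝ)) PosSemidef.one w x
  simp only [one_mulVec, hw, one_mul] at h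
  exact abs_le_one_iff_mul_self_le_one.2 (by nlinarith)

theorem grid {N : ℕ} {u v : Fin N → n → ℝ} (hu : ∀ i, u i ⬝ᵥ u i = 1) (hv : ∀ i, v i ⬝ᵥ v i = 1)
    (B : Fin N → Set (ℝ × ℝ)) (hfin : ∀ i, volume (B i) ≠ ⊤)
    (hcov : ∀ x : n → ℝ, x ⬝ᵥ x ≤ 1 → ∃ i, (u i ⬝ᵥ x, v i ⬝ᵥ x) ∈ B i) {ε s₀ : ℝ} (hε : 0 < ε)
    (hs₀ : 0 < s₀) :
    ∃ s, 0 < s ∧ s ≤ s₀ ∧ ∃ T : Fin N → Finset (ℤ × ℤ),
      (∀ i, s ^ 2 * (T i).card ≤ 4 * ((volume (B i)).toReal + ε)) ∧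
      ∀ x : n → ℝ, x ⬝ᵥ x ≤ 1 → ∃ i, ∃ j ∈ T i,
        |u i ⬝ᵥ x - (j.1 + 1 / 2) * (s / 2)| < s / 2 ∧
          |v i ⬝ᵥ x - (j.2 + 1 / 2) * (s / 2)| < s / 2 := by
  classical
  have hO : ∀ i, ∃ O ⊇ B i, IsOpen O ∧ volume O < ENNReal.ofReal ((volume (B i)).toReal + ε) :=
    fun i => Set.exists_isOpen_lt_of_lt _ _ (by
      conv_lhs => rw [← ENNReal.ofReal_toReal (hfin i)]
      exact (ENNReal.ofReal_lt_ofReal_iff (by positivity)).2 (by linarith))
  choose O hBO hOo hOv using hO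
  have hc : IsCompact {x : n → ℝ | x ⬝ᵥ x ≤ 1} := by
    refine Metric.isCompact_of_isClosed_isBounded
      (isClosed_le (by fun_prop) continuous_const) ?_
    refine (Metric.isBounded_closedBall (x := 0) (r := 1)).subset fun z hz => ?_
    rw [mem_closedBall_zero_iff, pi_norm_le_iff_of_nonneg zero_le_one]
    intro i
    have := (sq_le_dot z i).trans hz
    exact abs_le_one_iff_mul_self_le_one.2 (by nlinarith)
  let Φ : (n → ℝ) → Fin N → ℝ × ℝ := fun x i => (u i ⬝ᵥ x, v i ⬝ᵥ x)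
  obtain ⟨δ, hδ, hleb⟩ := lebesgue_number_lemma_of_metric (hc.image (f := Φ) (by fun_prop))
    (c := fun i => (fun y : Fin N → ℝ × ℝ => y i) ⁻¹' O i)
    (fun i => (hOo i).preimage (continuous_apply i)) (by
      rintro _ ⟨x, hx, rfl⟩
      obtain ⟨i, hi⟩ := hcov x hx
      exact Set.mem_iUnion.2 ⟨i, hBO i hi⟩)
  set l := min δ s₀ / 2 with hl
  have hl0 : 0 < l := by positivity
  have hlδ : l < δ := by have := min_le_left δ s₀; linarith
  refine ⟨2 * l, by positivity, by have := min_le_right δ s₀; linarith,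
    fun i => (Finset.Icc ⌊-1 / l⌋ ⌊1 / l⌋ ×ˢ Finset.Icc ⌊-1 / l⌋ ⌊1 / l⌋).filter
      fun j => Sq l j ⊆ O i, fun i => ?_, fun x hx => ?_⟩
  · rw [show (2 * l) ^ 2 = 4 * l ^ 2 by ring, mul_assoc]
    exact mul_le_mul_of_nonneg_left (card_Sq_le hl0 (by positivity) (hOv i).le _
      fun j hj => (Finset.mem_filter.1 hj).2) (by norm_num)
  · obtain ⟨i, hi⟩ := hleb _ ⟨x, hx, rfl⟩
    have h1 := abs_le.1 (abs_dot_le (hu i) hx)
    have h2 := abs_le.1 (abs_dot_le (hv i) hx)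
    have h3 := (floor_iff hl0 (u i ⬝ᵥ x) _).1 rfl
    have h4 := (floor_iff hl0 (v i ⬝ᵥ x) _).1 rfl
    refine ⟨i, (⌊u i ⬝ᵥ x / l⌋, ⌊v i ⬝ᵥ x / l⌋), Finset.mem_filter.2 ⟨?_, fun p hp => ?_⟩, ?_, ?_⟩
    · simp only [Finset.mem_product, Finset.mem_Icc]
      refine ⟨⟨?_, ?_⟩, ?_, ?_⟩ <;> refine Int.floor_mono (div_le_div_of_nonneg_right ?_ hl0.le)
      exacts [h1.1, h1.2, h2.1, h2.2]
    · have h5 := (floor_iff hl0 _ _).1 hp.1
      have h6 := (floor_iff hl0 _ _).1 hp.2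
      have h7 : Function.update (Φ x) i p ∈ Metric.ball (Φ x) δ := by
        rw [Metric.mem_ball, dist_pi_lt_iff hδ]
        intro k
        by_cases hk : k = i
        · subst hk
          rw [Function.update_self, Prod.dist_eq, max_lt_iff, Real.dist_eq, Real.dist_eq, abs_lt,
            abs_lt]
          simp only [Φ] at *
          refine ⟨⟨?_, ?_⟩, ?_, ?_⟩ <;> linarith [h3.1, h3.2, h4.1, h4.2, h5.1, h5.2, h6.1, h6.2]
        · simp [hk, hδ]
      simpa using hi h7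
    · rw [abs_lt]
      constructor <;> linarith [h3.1, h3.2]
    · rw [abs_lt]
      constructor <;> linarith [h4.1, h4.2]

theorem GG_le : GG ≤ 244 := by
  have h := Real.exp_one_lt_three
  have h2 : Real.exp 4 = Real.exp 1 ^ 4 := by rw [← Real.exp_nat_mul]; norm_num
  have h3 : Real.exp 1 ^ 4 ≤ 3 ^ 4 := pow_le_pow_left₀ (Real.exp_pos 1).le h.le 4
  unfold GG
  linarith

theorem coord [DecidableEq n] [Nonempty n] {N : ℕ} {u v : Fin N → n → ℝ}
    (hu : ∀ i, u i ⬝ᵥ u i = 1) (hv : ∀ i, v i ⬝ᵥ v i = 1) (huv : ∀ i, u i ⬝ᵥ v i = 0)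
    (B : Fin N → Set (ℝ × ℝ)) (hfin : ∀ i, volume (B i) ≠ ⊤)
    (hcov : ∀ x : n → ℝ, x ⬝ᵥ x ≤ 1 → ∃ i, (u i ⬝ᵥ x, v i ⬝ᵥ x) ∈ B i) {m : ℝ}
    (hm : ∀ g, ∑ i, (volume (B i)).toReal * ((u i ⬝ᵥ g) ^ 2 + (v i ⬝ᵥ g) ^ 2) ≤ m * (g ⬝ᵥ g)) :
    1 / 10 ^ 6 ≤ √m * ∑ j, √(∑ i, (volume (B i)).toReal * (u i j ^ 2 + v i j ^ 2)) := by
  by_contra hlt
  rw [not_le] at hlt
  have hG := two_le_GG
  have hG' := GG_le
  set a : Fin N → ℝ := fun i => (volume (B i)).toReal with ha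
  have ha0 : ∀ i, 0 ≤ a i := fun i => ENNReal.toReal_nonneg
  set μ : n → ℝ := fun j => ∑ i, a i * (u i j ^ 2 + v i j ^ 2) with hμ
  have hμ0 : ∀ j, 0 ≤ μ j := fun j => Finset.sum_nonneg fun i _ => by have := ha0 i; positivity
  have hμm : ∀ j, μ j ≤ m := fun j => by simpa using hm (Pi.single j 1)
  have hm0 : 0 ≤ m := (hμ0 (Classical.arbitrary n)).trans (hμm _)
  set X := √m * ∑ j, √(μ j) with hX
  set A := ∑ i, a i with hA
  have hA0 : 0 ≤ A := Finset.sum_nonneg fun i _ => ha0 i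
  have hAX : 2 * A ≤ X := by
    have h1 : ∑ j, μ j = 2 * A := by
      rw [hμ, Finset.sum_comm, hA, Finset.mul_sum]
      refine Finset.sum_congr rfl fun i _ => ?_
      have h2 := hu i
      have h3 := hv i
      simp only [dotProduct, ← sq] at h2 h3
      rw [← Finset.mul_sum, Finset.sum_add_distrib, h2, h3]
      ring
    rw [← h1, hX, Finset.mul_sum]
    refine Finset.sum_le_sum fun j _ => ?_
    calc μ j = √(μ j) * √(μ j) := (Real.mul_self_sqrt (hμ0 j)).symm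
      _ ≤ _ := by gcongr; exact hμm j
  have hP : ∀ i g, (u i ⬝ᵥ g) ^ 2 + (v i ⬝ᵥ g) ^ 2 ≤ 2 * (g ⬝ᵥ g) := fun i g => by
    have h1 := cs (Y := (1 : Matrix n n ℝ)) PosSemidef.one (u i) g
    have h2 := cs (Y := (1 : Matrix n n ℝ)) PosSemidef.one (v i) g
    simp only [one_mulVec, hu, hv, one_mul] at h1 h2
    linarith
  set m₁ := min m (2 * A) with hm₁
  have hm₁0 : 0 ≤ m₁ := le_min hm0 (by linarith)
  have hm1 : ∀ g, ∑ i, a i * ((u i ⬝ᵥ g) ^ 2 + (v i ⬝ᵥ g) ^ 2) ≤ m₁ * (g ⬝ᵥ g) := by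
    intro g
    rw [hm₁, min_mul_of_nonneg _ _ (dot_self_nonneg g)]
    refine le_min (hm g) ?_
    rw [hA, Finset.mul_sum, Finset.sum_mul]
    exact Finset.sum_le_sum fun i _ => by nlinarith [hP i g, ha0 i]
  let φ : ℝ → ℝ := fun ε =>
    16 * GG * (8 * (∑ j, √(4 * μ j + (8 * N + 1) * ε)) ^ 2) *
      (64 * GG * (4 * m₁ + (8 * N + 1) * ε)) + 128 * GG * (4 * A + 4 * N * ε) +
      64 * GG * (4 * m₁ + (8 * N + 1) * ε)
  have hφ0 : φ 0 < 1 / 4 := by
    have h1 : ∀ j, √(4 * μ j) = 2 * √(μ j) := fun j => by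
      rw [Real.sqrt_mul (by norm_num), show (4 : ℝ) = 2 ^ 2 by norm_num, Real.sqrt_sq (by norm_num)]
    have hX0 : 0 ≤ X := by positivity
    have h2 : m₁ * (∑ j, √(μ j)) ^ 2 ≤ X ^ 2 := by
      rw [hX, mul_pow, Real.sq_sqrt hm0]
      gcongr
      exact min_le_left _ _
    have h3 : m₁ ≤ X := (min_le_right _ _).trans hAX
    have h4 : GG * X ≤ 244 / 10 ^ 6 := by nlinarith
    have h5 : (GG * X) ^ 2 ≤ (244 / 10 ^ 6) ^ 2 := by gcongr
    simp only [φ, mul_zero, add_zero, h1, ← Finset.mul_sum]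
    nlinarith [mul_le_mul_of_nonneg_left h2 (sq_nonneg GG), mul_le_mul_of_nonneg_left h3
      (show 0 ≤ GG by linarith), mul_le_mul_of_nonneg_left hAX (show 0 ≤ GG by linarith)]
  obtain ⟨ε, hφε, hε⟩ : ∃ ε, φ ε < 1 / 4 ∧ 0 < ε := by
    have h1 : ContinuousAt φ 0 := by fun_prop
    have h2 := (h1.eventually_lt continuousAt_const hφ0).filter_mono
      (nhdsWithin_le_nhds (s := Set.Ioi 0))
    exact (h2.and self_mem_nhdsWithin).exists
  set μ' : n → ℝ := fun j => 4 * μ j + (8 * N + 1) * ε with hμ'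
  have hμ'0 : ∀ j, 0 < μ' j := fun j => by have := hμ0 j; positivity
  set S := ∑ j, √(μ' j) with hS
  have hS0 : 0 < S := Finset.sum_pos (fun j _ => Real.sqrt_pos.2 (hμ'0 j)) Finset.univ_nonempty
  set q : n → ℝ := fun j => √(μ' j) / (8 * S) with hq
  have hq0 : ∀ j, 0 < q j := fun j => div_pos (Real.sqrt_pos.2 (hμ'0 j)) (by positivity)
  set m' := 4 * m₁ + (8 * N + 1) * ε with hm'
  have hm'0 : 0 < m' := by positivity
  set t := 64 * GG * m' with ht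
  have ht0 : 0 < t := by positivity
  set K := 16 * GG * (8 * S ^ 2) + 128 * GG * (4 * A + 4 * N * ε) / t + 1 with hK
  set Y := ∑ j, 2 / q j + 2 * (Real.exp (2 + K) / t) with hY
  have hY0 : 0 < Y := add_pos_of_nonneg_of_pos
    (Finset.sum_nonneg fun j _ => by have := hq0 j; positivity) (by positivity)
  obtain ⟨s, hs, hss, T, hT, hTc⟩ := grid hu hv B hfin hcov hε
    (s₀ := √(1 / (16 * GG * Y))) (by positivity)
  have hsum : ∀ F : Fin N → ℝ, (∀ i, 0 ≤ F i) →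
      ∑ τ : (i : Fin N) × T i, s ^ 2 * F τ.1 ≤ ∑ i, 4 * (a i + ε) * F i := by
    intro F hF
    rw [Fintype.sum_sigma]
    refine Finset.sum_le_sum fun i _ => ?_
    simp only [Finset.sum_const, Finset.card_univ, Fintype.card_coe, nsmul_eq_mul]
    nlinarith [mul_le_mul_of_nonneg_right (hT i) (hF i)]
  obtain ⟨x, hx, hxa⟩ := token (ι := (i : Fin N) × T i) (u := fun τ => u τ.1) (v := fun τ => v τ.1)
    (fun τ => hu _) (fun τ => hv _) (fun τ => huv _) hq0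
    (by rw [hq, ← Finset.sum_div, ← hS]; apply le_of_eq; field_simp; norm_num)
    (Λ := 8 * S ^ 2) (A := 4 * A + 4 * N * ε) hs hm'0 ht hK
    (by
      refine le_trans (le_of_eq ?_) hφε.le
      simp only [φ]
      rw [hK, add_mul, add_mul, div_mul_cancel₀ _ ht0.ne', one_mul])
    (fun g => by
      refine (hsum (fun i => (u i ⬝ᵥ g) ^ 2 + (v i ⬝ᵥ g) ^ 2) fun i => by positivity).trans ?_
      have h1 := hm1 g
      have h2 : ∑ i, ε * ((u i ⬝ᵥ g) ^ 2 + (v i ⬝ᵥ g) ^ 2) ≤ ∑ _i : Fin N, ε * (2 * (g ⬝ᵥ g)) :=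
        Finset.sum_le_sum fun i _ => mul_le_mul_of_nonneg_left (hP i g) hε.le
      simp only [Finset.sum_const, Finset.card_univ, Fintype.card_fin, nsmul_eq_mul] at h2
      simp only [mul_assoc, ← Finset.mul_sum, add_mul, Finset.sum_add_distrib] at h1 h2 ⊢
      nlinarith [mul_nonneg hε.le (dot_self_nonneg g)])
    (by
      rw [Finset.mul_sum]
      refine (hsum (fun i => ∑ j, (u i j ^ 2 + v i j ^ 2) / q j) fun i =>
        Finset.sum_nonneg fun j _ => by have := hq0 j; positivity).trans ?_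
      simp only [Finset.mul_sum]
      rw [Finset.sum_comm, sq S, ← mul_assoc, hS, Finset.mul_sum]
      refine Finset.sum_le_sum fun j _ => ?_
      have h1 : ∑ i, 4 * (a i + ε) * (u i j ^ 2 + v i j ^ 2) ≤ μ' j := by
        have h2 : ∑ i, ε * (u i j ^ 2 + v i j ^ 2) ≤ ∑ _i : Fin N, ε * 2 :=
          Finset.sum_le_sum fun i _ => mul_le_mul_of_nonneg_left
            (by simpa using hP i (Pi.single j 1)) hε.le
        simp only [Finset.sum_const, Finset.card_univ, Fintype.card_fin, nsmul_eq_mul] at h2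
        simp only [hμ', hμ, mul_assoc, ← Finset.mul_sum, add_mul, Finset.sum_add_distrib] at h2 ⊢
        linarith
      simp only [← mul_div_assoc, ← Finset.sum_div]
      rw [div_le_iff₀ (hq0 j), ← hS]
      refine h1.trans (le_of_eq ?_)
      simp only [hq]
      field_simp
      exact (Real.sq_sqrt (hμ'0 j).le).symm)
    (by
      have := hsum (fun _ => 1) fun _ => zero_le_one
      simp only [mul_one, Finset.sum_const, Finset.card_univ, nsmul_eq_mul, ← Finset.mul_sum,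
        Finset.sum_add_distrib, Fintype.card_fin] at this
      linarith)
    (by
      have h1 := (Real.le_sqrt hs.le (by positivity)).1 hss
      rw [le_div_iff₀ (by positivity)] at h1
      linarith)
    (fun τ => (τ.2.1.1 + 1 / 2) * (s / 2)) (fun τ => (τ.2.1.2 + 1 / 2) * (s / 2))
  obtain ⟨i, j, hj, h1, h2⟩ := hTc x hx
  rcases hxa ⟨i, j, hj⟩ with h | h
  · exact absurd h1 (not_lt.2 h)
  · exact absurd h2 (not_lt.2 h)

end Pool.Agent.P.MP_e3ef68_co.Lat
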