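import Mathlib
import Pool.Agent.P.MP_e3ef68_co.Core

namespace Pool.Agent.P.MP_e3ef68_co

open MeasureTheory Set
open scoped ENNReal

theorem coord {α ι : Type*} [Fintype α] [DecidableEq α] [Fintype ι] (a b : ι → α)
    (hab : ∀ i, a i ≠ b i) (B : ι → Set (ℝ × ℝ)) (hB : ∀ i, MeasurableSet (B i))
    (hsum : ∑ i, volume (B i) < 5⁻¹) :
    ∃ x : α → ℝ, ∑ c, x c ^ 2 ≤ 1 ∧ ∀ i, (x (a i), x (b i)) ∉ B i := by
  classical
  let W : α → α → Set (ℝ × ℝ) := fun c e => ⋃ i,
    ((if a i = c ∧ b i = e then B i else ∅) ∪ (if a i = e ∧ b i = c then Prod.swap ⁻¹' B i else ∅))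
  have hW : ∀ c e, MeasurableSet (W c e) := fun c e => MeasurableSet.iUnion fun i =>
    (by split_ifs; exacts [hB i, MeasurableSet.empty] :
      MeasurableSet (if a i = c ∧ b i = e then B i else ∅)).union
    (by split_ifs; exacts [measurable_swap (hB i), MeasurableSet.empty])
  have hsym : ∀ c e u v, (u, v) ∈ W c e → (v, u) ∈ W e c := by
    intro c e u v h
    obtain ⟨i, hi⟩ := mem_iUnion.1 h
    refine mem_iUnion.2 ⟨i, ?_⟩
    rcases hi with hi | hi
    · right; split_ifs at hi ⊢; exacts [hi, hi]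
    · left; split_ifs at hi ⊢; exacts [hi, hi]
  have hswap : ∀ i, volume (Prod.swap ⁻¹' B i) = volume (B i) := fun i => by
    rw [Measure.volume_eq_prod]
    exact Measure.measurePreserving_swap.measure_preimage (hB i).nullMeasurableSet
  have hWv : ∀ c e, volume (W c e) ≤ ∑ i, ((if a i = c ∧ b i = e then volume (B i) else 0)
      + (if a i = e ∧ b i = c then volume (B i) else 0)) := by
    intro c e
    refine (measure_iUnion_fintype_le _ _).trans (Finset.sum_le_sum fun i _ => ?_)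
    refine (measure_union_le _ _).trans (add_le_add ?_ ?_) <;> split_ifs <;> simp [hswap]
  let deg : α → ℝ≥0∞ := fun c => ∑ i, ((if a i = c then volume (B i) else 0)
      + (if b i = c then volume (B i) else 0))
  have hd1 : ∀ c, ∑ e, volume (W c e) ≤ deg c := by
    intro c
    refine (Finset.sum_le_sum fun e _ => hWv c e).trans ?_
    rw [Finset.sum_comm]
    refine Finset.sum_le_sum fun i _ => ?_
    rw [Finset.sum_add_distrib]
    refine add_le_add ?_ ?_
    · by_cases h : a i = c <;> simp [h]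
    · by_cases h : b i = c <;> simp [h]
  have hd2 : ∀ c, ∑ e, volume (W e c) ≤ deg c := by
    intro c
    refine (Finset.sum_le_sum fun e _ => hWv e c).trans ?_
    rw [Finset.sum_comm]
    refine Finset.sum_le_sum fun i _ => ?_
    rw [Finset.sum_add_distrib, add_comm]
    refine add_le_add ?_ ?_
    · by_cases h : a i = c <;> simp [h]
    · by_cases h : b i = c <;> simp [h]
  have hd3 : ∑ c, deg c = 2 * ∑ i, volume (B i) := by
    simp only [deg]
    rw [Finset.sum_comm, Finset.mul_sum]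
    refine Finset.sum_congr rfl fun i _ => ?_
    rw [Finset.sum_add_distrib]
    simp [two_mul]
  set A := ∑ i, volume (B i) with hA
  have hAtop : A ≠ ∞ := hsum.ne_top
  let δ : ℝ≥0∞ := 5⁻¹ - A
  have hδ0 : δ ≠ 0 := (tsub_pos_of_lt hsum).ne'
  have hδ1 : δ ≠ ∞ := ENNReal.sub_ne_top (by simp)
  let ε : ℝ≥0∞ := δ / (Fintype.card α + 1)
  have hε0 : ε ≠ 0 := (ENNReal.div_pos hδ0 (by simp)).ne'
  have hε1 : ε ≠ ∞ := ENNReal.div_ne_top hδ1 (by simp)
  have hεn : (Fintype.card α : ℝ≥0∞) * ε ≤ δ := by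
    calc (Fintype.card α : ℝ≥0∞) * ε ≤ (Fintype.card α + 1) * ε := by gcongr; exact le_self_add
      _ = δ := ENNReal.mul_div_cancel (by simp) (by simp)
  have hdeg : ∀ c, deg c ≠ ∞ := fun c => ne_top_of_le_ne_top
    (ENNReal.mul_ne_top (by simp) hAtop)
    (hd3 ▸ Finset.single_le_sum (f := deg) (fun _ _ => zero_le) (Finset.mem_univ c))
  let s : α → ℝ≥0∞ := fun c => (deg c + ε) ^ (2⁻¹ : ℝ)
  have hs2 : ∀ c, s c ^ 2 = deg c + ε := fun c => by
    simp only [s]
    rw [← ENNReal.rpow_natCast, ← ENNReal.rpow_mul]; norm_num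
  have hs0 : ∀ c, s c ≠ 0 := fun c h => by
    have := hs2 c
    rw [h] at this
    exact hε0 (by simpa using (add_eq_zero.1 (by simpa using this.symm)).2)
  have hs1 : ∀ c, s c ≠ ∞ := fun c h => by
    have := hs2 c
    rw [h] at this
    exact ENNReal.add_ne_top.2 ⟨hdeg c, hε1⟩ (by simpa using this.symm)
  have he : ∀ (c : α) (f : α → ℝ≥0∞), ∑ e, f e ≤ deg c →
      ∑ e ∈ Finset.univ.erase c, f e ≤ s c ^ 2 := fun c f h =>
    (Finset.sum_le_sum_of_subset (Finset.erase_subset _ _)).trans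
      (h.trans (by rw [hs2]; exact le_self_add))
  obtain ⟨x, -, hxW, hxs⟩ := core W hW hsym s hs0 hs1 Finset.univ
    (fun c _ => he c _ (hd1 c)) (fun _ => ∅) (by simp)
  refine ⟨x, ?_, fun i h => hxW _ (Finset.mem_univ _) _ (Finset.mem_univ _) (hab i)
    (mem_iUnion.2 ⟨i, Or.inl (by simpa using h)⟩)⟩
  have h1 : ∑ c, 4 * ENNReal.ofReal (x c ^ 2) ≤ ∑ c, 10 * (deg c + ε) := by
    refine hxs.trans (Finset.sum_le_sum fun c _ => ?_)
    have h2 : ∑ e ∈ Finset.univ.erase c, volume (W e c) / s c ≤ s c := by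
      simp_rw [div_eq_mul_inv]
      rw [← Finset.sum_mul, ← div_eq_mul_inv]
      exact ENNReal.div_le_of_le_mul (by rw [← sq]; exact he c _ (hd2 c))
    calc _ ≤ (2 * s c + volume (∅ : Set ℝ) + s c) ^ 2 + s c ^ 2 :=
          add_le_add (pow_le_pow_left' (add_le_add le_rfl h2) 2) (he c _ (hd2 c))
      _ = 10 * s c ^ 2 := by rw [measure_empty]; ring
      _ = _ := by rw [hs2]
  rw [← Finset.mul_sum, ← Finset.mul_sum, Finset.sum_add_distrib, hd3, Finset.sum_const,
    Finset.card_univ, nsmul_eq_mul, ← ENNReal.ofReal_sum_of_nonneg fun c _ => sq_nonneg _] at h1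
  have h3 : 10 * (2 * A + Fintype.card α * ε) ≤ 4 * 1 := by
    calc 10 * (2 * A + Fintype.card α * ε) ≤ 10 * (2 * A + (δ + δ)) := by
          gcongr; exact hεn.trans le_self_add
      _ = 20 * (A + δ) := by ring
      _ = 4 * (5 * 5⁻¹) := by rw [add_tsub_cancel_of_le hsum.le]; ring
      _ = 4 * 1 := by rw [ENNReal.mul_inv_cancel (by simp) (by simp)]
  have h4 := (ENNReal.mul_le_mul_iff_right (by simp) (by simp)).1 (h1.trans h3)
  exact ENNReal.ofReal_le_one.1 h4

section Geometry

open Module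

variable {E : Type*} [NormedAddCommGroup E] [InnerProductSpace ℝ E] [FiniteDimensional ℝ E]

theorem exists_basis {d N : ℕ} (hd : finrank ℝ E = d) (K : Fin N → Submodule ℝ E)
    (hK : ∀ i j, Commute (K i).starProjection (K j).starProjection) :
    ∃ v : OrthonormalBasis (Fin d) ℝ E, ∀ k i, v k ∈ K i ∨ v k ∈ (K i)ᗮ := by
  classical
  let V : (Fin N → Bool) → Submodule ℝ E := fun χ => ⨅ i, if χ i then K i else (K i)ᗮ
  have hV : OrthogonalFamily ℝ (fun χ => V χ) fun χ => (V χ).subtypeₗᵢ := by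
    refine OrthogonalFamily.of_pairwise fun χ ψ hne => ?_
    obtain ⟨i, hi⟩ := Function.ne_iff.1 hne
    refine Submodule.IsOrtho.mono (iInf_le _ i) (iInf_le _ i) ?_
    cases h1 : χ i <;> cases h2 : ψ i
    · exact absurd (h1.trans h2.symm) hi
    · simp
    · simp
    · exact absurd (h1.trans h2.symm) hi
  have htop : iSup V = ⊤ := by
    have h := LinearMap.IsSymmetric.iSup_iInf_eq_top_of_commute
      (T := fun i => ((K i).starProjection : E →ₗ[ℝ] E))
      (fun i => (K i).starProjection_isSymmetric) (fun i j _ => by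
        have := congrArg (fun f : E →L[ℝ] E => (f : E →ₗ[ℝ] E)) (hK i j).eq
        exact this)
    rw [eq_top_iff, ← h]
    refine iSup_le fun μ => le_trans ?_ (le_iSup V fun i => decide (μ i ≠ 0))
    refine iInf_mono fun i x hx => ?_
    rw [Module.End.mem_eigenspace_iff] at hx
    have hx' : (K i).starProjection x = μ i • x := hx
    by_cases h0 : μ i = 0
    · simp only [h0, ne_eq, not_true, decide_false, Bool.false_eq_true, if_false]
      have := (K i).sub_starProjection_mem_orthogonal x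
      rwa [hx', h0, zero_smul, sub_zero] at this
    · simp only [h0, ne_eq, not_false_iff, decide_true, if_true]
      have := (K i).smul_mem (μ i)⁻¹ ((K i).starProjection_apply_mem x)
      rwa [hx', smul_smul, inv_mul_cancel₀ h0, one_smul] at this
  have hint : DirectSum.IsInternal V := hV.isInternal_iff.2 (by rw [htop]; simp)
  refine ⟨hint.subordinateOrthonormalBasis hd hV, fun k i => ?_⟩
  have := (Submodule.mem_iInf _).1 (hint.subordinateOrthonormalBasis_subordinate hd k hV) i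
  split_ifs at this
  exacts [Or.inl this, Or.inr this]

omit [FiniteDimensional ℝ E] in
theorem exists_pair {d : ℕ} (v : OrthonormalBasis (Fin d) ℝ E) (L : Submodule ℝ E)
    (hL : finrank ℝ L = 2) (hv : ∀ k, v k ∈ L ∨ v k ∈ Lᗮ) :
    ∃ a b, a ≠ b ∧ v a ∈ L ∧ v b ∈ L := by
  classical
  let S : Finset (Fin d) := Finset.univ.filter fun k => v k ∈ L
  have hle : L ≤ Submodule.span ℝ (S.image v : Set E) := by
    intro x hx
    rw [← v.sum_repr' x]
    refine Submodule.sum_mem _ fun k _ => ?_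
    rcases hv k with h | h
    · exact Submodule.smul_mem _ _ (Submodule.subset_span (by
        simp only [Finset.coe_image]; exact ⟨k, by simp [S, h], rfl⟩))
    · rw [Submodule.inner_left_of_mem_orthogonal hx h, zero_smul]; exact Submodule.zero_mem _
  have h2 : 2 ≤ S.card := by
    calc 2 = finrank ℝ L := hL.symm
      _ ≤ finrank ℝ (Submodule.span ℝ (S.image v : Set E)) := Submodule.finrank_mono hle
      _ ≤ (S.image v).card := finrank_span_finset_le_card _
      _ ≤ S.card := Finset.card_image_le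
  obtain ⟨a, ha, b, hb, hab⟩ := Finset.one_lt_card.1 (show 1 < S.card by omega)
  exact ⟨a, b, hab, (Finset.mem_filter.1 ha).2, (Finset.mem_filter.1 hb).2⟩

theorem exists_chart [MeasurableSpace E] [BorelSpace E] (L : Submodule ℝ E) (hL : finrank ℝ L = 2)
    (u w : E) (hu : u ∈ L) (hw : w ∈ L) (hu1 : ‖u‖ = 1) (hw1 : ‖w‖ = 1) (huw : inner ℝ u w = 0) :
    ∃ φ : ℝ × ℝ → L, MeasurePreserving φ ∧ ∀ z : L, φ (inner ℝ u (z : E), inner ℝ w (z : E)) = z := by
  have hon : Orthonormal ℝ (![⟨u, hu⟩, ⟨w, hw⟩] : Fin 2 → L) := by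
    refine ⟨fun i => ?_, fun i j hij => ?_⟩
    · fin_cases i
      · exact hu1
      · exact hw1
    · fin_cases i <;> fin_cases j
      · exact absurd rfl hij
      · exact huw
      · exact (real_inner_comm _ _).trans huw
      · exact absurd rfl hij
  let o : OrthonormalBasis (Fin 2) ℝ L :=
    (basisOfOrthonormalOfCardEqFinrank hon (by simp [hL])).toOrthonormalBasis (by simpa using hon)
  have ho : ∀ i, o i = (![⟨u, hu⟩, ⟨w, hw⟩] : Fin 2 → L) i := fun i => by simp [o]
  refine ⟨_, (o.measurePreserving_repr_symm.comp (PiLp.volume_preserving_toLp (Fin 2))).comp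
    ((volume_preserving_finTwoArrow ℝ).symm _), fun z => ?_⟩
  simp only [Function.comp_apply]
  rw [LinearIsometryEquiv.symm_apply_eq]
  ext i
  rw [o.repr_apply_apply, ho]
  fin_cases i <;> rfl

end Geometry

theorem commuting {E : Type*} [NormedAddCommGroup E] [InnerProductSpace ℝ E]
    [FiniteDimensional ℝ E] [MeasurableSpace E] [BorelSpace E] (N : ℕ) (H : Fin N → Submodule ℝ E)
    (B : (i : Fin N) → Set ↥(H i)ᗮ) (hL : ∀ i, Module.finrank ℝ ↥(H i)ᗮ = 2)
    (hc : ∀ i j, Commute (H i).starProjection (H j).starProjection)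
    (hB : ∀ i, MeasurableSet (B i))
    (hcov : Metric.closedBall (0 : E) 1 ⊆ ⋃ i, {x : E | ∃ h ∈ H i, ∃ b ∈ B i, x = h + (b : E)}) :
    5⁻¹ ≤ ∑ i, volume (B i) := by
  by_contra hlt
  rw [not_le] at hlt
  obtain ⟨v, hv⟩ := exists_basis (d := Module.finrank ℝ E) rfl H hc
  have hp : ∀ i, ∃ a b, a ≠ b ∧ v a ∈ (H i)ᗮ ∧ v b ∈ (H i)ᗮ := fun i =>
    exists_pair v _ (hL i) fun k => by
      rw [Submodule.orthogonal_orthogonal]; exact (hv k i).symm
  choose a b hab ha hb using hp
  have hφ : ∀ i, ∃ φ : ℝ × ℝ → (H i)ᗮ, MeasurePreserving φ ∧ ∀ z : (H i)ᗮ,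
      φ (inner ℝ (v (a i)) (z : E), inner ℝ (v (b i)) (z : E)) = z := fun i =>
    exists_chart _ (hL i) _ _ (ha i) (hb i) (v.orthonormal.1 _) (v.orthonormal.1 _)
      (v.orthonormal.2 (hab i))
  choose φ hφm hφ using hφ
  obtain ⟨y, hy1, hy⟩ := coord a b hab (fun i => φ i ⁻¹' B i) (fun i => (hφm i).measurable (hB i))
    (by simpa only [fun i => (hφm i).measure_preimage (hB i).nullMeasurableSet] using hlt)
  have hx : v.repr.symm (WithLp.toLp 2 y) ∈ Metric.closedBall (0 : E) 1 := by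
    rw [mem_closedBall_zero_iff, LinearIsometryEquiv.norm_map, EuclideanSpace.norm_eq]
    exact Real.sqrt_le_one.2 (by simpa using hy1)
  obtain ⟨i, h, hh, z, hz, hxz⟩ := mem_iUnion.1 (hcov hx)
  have hco : ∀ k, v k ∈ (H i)ᗮ → inner ℝ (v k) (z : E) = y k := by
    intro k hk
    have h1 : inner ℝ (v k) (v.repr.symm (WithLp.toLp 2 y)) = y k := by
      rw [← v.repr_apply_apply, LinearIsometryEquiv.apply_symm_apply]
    rw [← h1, hxz, inner_add_right, Submodule.inner_left_of_mem_orthogonal hh hk, zero_add]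
  refine hy i ?_
  rw [mem_preimage, ← hco _ (ha i), ← hco _ (hb i), hφ i z]
  exact hz

end Pool.Agent.P.MP_e3ef68_co
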