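import Mathlib
import Pool.Agent.P.MP_e3ef68_co.Main
import Pool.Agent.P.MP_e3ef68_co.LGrid

/-!
The load inequality for coverings of the unit ball by cylinders with planar bases.
-/

namespace Pool.Agent.P.MP_e3ef68_co.Lat

open Matrix MeasureTheory

variable {E : Type*} [NormedAddCommGroup E] [InnerProductSpace ℝ E] [FiniteDimensional ℝ E]

theorem exists_frame (L : Submodule ℝ E) (hL : Module.finrank ℝ L = 2) :
    ∃ u ∈ L, ∃ w ∈ L, ‖u‖ = 1 ∧ ‖w‖ = 1 ∧ inner ℝ u w = 0 ∧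
      ∀ g, ‖L.starProjection g‖ ^ 2 = inner ℝ u g ^ 2 + inner ℝ w g ^ 2 := by
  let o : OrthonormalBasis (Fin 2) ℝ L := (stdOrthonormalBasis ℝ L).reindex (finCongr hL)
  refine ⟨o 0, (o 0).2, o 1, (o 1).2, o.orthonormal.1 0, o.orthonormal.1 1,
    o.orthonormal.2 (show (0 : Fin 2) ≠ 1 by decide), fun g => ?_⟩
  have h := o.sum_sq_inner_right (L.orthogonalProjectionOnto g)
  simp only [Fin.sum_univ_two, Submodule.inner_orthogonalProjectionOnto_eq_of_mem_left] at h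
  rw [h]
  rfl

theorem load [MeasurableSpace E] [BorelSpace E] {d : ℕ} (e : OrthonormalBasis (Fin d) ℝ E)
    (N : ℕ) (H : Fin N → Submodule ℝ E) (B : (i : Fin N) → Set ↥(H i)ᗮ)
    (hH : ∀ i, Module.finrank ℝ ↥(H i)ᗮ = 2) (hB : ∀ i, MeasurableSet (B i))
    (hfin : ∀ i, volume (B i) ≠ ⊤)
    (hcov : Metric.closedBall (0 : E) 1 ⊆ ⋃ i, {x : E | ∃ h ∈ H i, ∃ b ∈ B i, x = h + (b : E)})
    (m : ℝ) (hm : ∀ g : E,
      ∑ i, (volume (B i)).toReal * ‖(H i)ᗮ.starProjection g‖ ^ 2 ≤ m * ‖g‖ ^ 2) :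
    1 / 10 ^ 6 ≤
      √m * ∑ j, √(∑ i, (volume (B i)).toReal * ‖(H i)ᗮ.starProjection (e j)‖ ^ 2) := by
  have hd : Nonempty (Fin d) := by
    obtain ⟨i, -⟩ := Set.mem_iUnion.1 (hcov (Metric.mem_closedBall_self zero_le_one))
    have h1 := Submodule.finrank_le (H i)ᗮ
    rw [hH, Module.finrank_eq_card_basis e.toBasis, Fintype.card_fin] at h1
    exact ⟨⟨0, by omega⟩⟩
  choose U hU W hW hU1 hW1 hUW hP using fun i => exists_frame (H i)ᗮ (hH i)
  choose φ hφm hφ using fun i =>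
    exists_chart (H i)ᗮ (hH i) _ _ (hU i) (hW i) (hU1 i) (hW1 i) (hUW i)
  have hdot : ∀ x y : E, (e.repr x).ofLp ⬝ᵥ (e.repr y).ofLp = inner ℝ x y := fun x y => by
    rw [← e.repr.inner_map_map, EuclideanSpace.inner_eq_star_dotProduct, star_trivial,
      dotProduct_comm]
  have hrep : ∀ x : Fin d → ℝ, (e.repr (e.repr.symm (WithLp.toLp 2 x))).ofLp = x := fun x => by simp
  have hvol : ∀ i, volume (φ i ⁻¹' B i) = volume (B i) := fun i =>
    (hφm i).measure_preimage (hB i).nullMeasurableSet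
  have h := coord (u := fun i => (e.repr (U i)).ofLp) (v := fun i => (e.repr (W i)).ofLp)
    (fun i => by rw [hdot, real_inner_self_eq_norm_sq, hU1, one_pow])
    (fun i => by rw [hdot, real_inner_self_eq_norm_sq, hW1, one_pow])
    (fun i => by rw [hdot, hUW]) (fun i => φ i ⁻¹' B i) (fun i => hvol i ▸ hfin i)
    (fun x hx => by
      set y := e.repr.symm (WithLp.toLp 2 x) with hy
      have hy1 : y ∈ Metric.closedBall (0 : E) 1 := by
        rw [← hrep x, ← hy, hdot, real_inner_self_eq_norm_sq] at hx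
        rw [mem_closedBall_zero_iff]
        nlinarith [norm_nonneg y]
      obtain ⟨i, h, hh, z, hz, hxz⟩ := Set.mem_iUnion.1 (hcov hy1)
      refine ⟨i, ?_⟩
      rw [← hrep x, ← hy, hdot, hdot, hxz, inner_add_right, inner_add_right,
        Submodule.inner_left_of_mem_orthogonal hh (hU i),
        Submodule.inner_left_of_mem_orthogonal hh (hW i), zero_add, zero_add, Set.mem_preimage,
        hφ i z]
      exact hz)
    (m := m) (fun g => by
      have h1 := hm (e.repr.symm (WithLp.toLp 2 g))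
      rw [← hrep g]
      simpa only [hdot, hvol, hP, real_inner_self_eq_norm_sq] using h1)
  simpa only [hvol, hP, OrthonormalBasis.repr_apply_apply, real_inner_comm] using h

/-- Consequence: the total area `A` and the load bound `m` satisfy `2 d m A ≥ 10⁻¹²`. -/
theorem area_mul_load [MeasurableSpace E] [BorelSpace E]
    (N : ℕ) (H : Fin N → Submodule ℝ E) (B : (i : Fin N) → Set ↥(H i)ᗮ)
    (hH : ∀ i, Module.finrank ℝ ↥(H i)ᗮ = 2) (hB : ∀ i, MeasurableSet (B i))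
    (hfin : ∀ i, volume (B i) ≠ ⊤)
    (hcov : Metric.closedBall (0 : E) 1 ⊆ ⋃ i, {x : E | ∃ h ∈ H i, ∃ b ∈ B i, x = h + (b : E)})
    (m : ℝ) (hm0 : 0 ≤ m) (hm : ∀ g : E,
      ∑ i, (volume (B i)).toReal * ‖(H i)ᗮ.starProjection g‖ ^ 2 ≤ m * ‖g‖ ^ 2) :
    1 / 10 ^ 12 ≤ 2 * Module.finrank ℝ E * m * ∑ i, (volume (B i)).toReal := by
  set e := stdOrthonormalBasis ℝ E
  have h := load e N H B hH hB hfin hcov m hm
  set μ := fun j => ∑ i, (volume (B i)).toReal * ‖(H i)ᗮ.starProjection (e j)‖ ^ 2 with hμ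
  have hμ0 : ∀ j, 0 ≤ μ j := fun j => Finset.sum_nonneg fun i _ => by positivity
  have h1 : ∑ j, μ j = 2 * ∑ i, (volume (B i)).toReal := by
    rw [hμ, Finset.sum_comm, Finset.mul_sum]
    refine Finset.sum_congr rfl fun i _ => ?_
    obtain ⟨u, -, w, -, hu, hw, -, hP⟩ := exists_frame (H i)ᗮ (hH i)
    simp only [← Finset.mul_sum, hP, Finset.sum_add_distrib, e.sum_sq_inner_left, hu, hw]
    ring
  have h2 : (∑ j, √(μ j)) ^ 2 ≤ Module.finrank ℝ E * ∑ j, μ j := by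
    have := sq_sum_le_card_mul_sum_sq (s := Finset.univ) (f := fun j => √(μ j))
    simpa only [Finset.card_univ, Fintype.card_fin, Real.sq_sqrt (hμ0 _)] using this
  have h3 : (1 / 10 ^ 6 : ℝ) ^ 2 ≤ (√m * ∑ j, √(μ j)) ^ 2 := by gcongr
  rw [mul_pow, Real.sq_sqrt hm0] at h3
  rw [h1] at h2
  nlinarith [mul_le_mul_of_nonneg_left h2 hm0]

/-- Consequence: the total area is at least `10⁻⁶ / √(2 d)`. -/
theorem area_sqrt_dim [MeasurableSpace E] [BorelSpace E]
    (N : ℕ) (H : Fin N → Submodule ℝ E) (B : (i : Fin N) → Set ↥(H i)ᗮ)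
    (hH : ∀ i, Module.finrank ℝ ↥(H i)ᗮ = 2) (hB : ∀ i, MeasurableSet (B i))
    (hfin : ∀ i, volume (B i) ≠ ⊤)
    (hcov : Metric.closedBall (0 : E) 1 ⊆ ⋃ i, {x : E | ∃ h ∈ H i, ∃ b ∈ B i, x = h + (b : E)}) :
    1 / 10 ^ 6 ≤ √(2 * Module.finrank ℝ E) * ∑ i, (volume (B i)).toReal := by
  have hA : 0 ≤ ∑ i, (volume (B i)).toReal := Finset.sum_nonneg fun i _ => by positivity
  have h := area_mul_load N H B hH hB hfin hcov _ hA fun g => by
    rw [Finset.sum_mul]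
    refine Finset.sum_le_sum fun i _ => ?_
    have := (H i)ᗮ.norm_starProjection_apply_le g
    gcongr
  refine (pow_le_pow_iff_left₀ (by positivity) (by positivity) two_ne_zero).1 ?_
  rw [mul_pow, Real.sq_sqrt (by positivity)]
  nlinarith

end Pool.Agent.P.MP_e3ef68_co.Lat
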